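import Pool.Agent.Erdos456.Iface
import Pool.Agent.Erdos456.Smooth2

/-!
# Many short intervals with primes inside a window with primes
-/

set_option autoImplicit false

namespace Run7.h946.PW

open Finset
open Pool.Agent.Erdos456 (GG sieve_two' sum_GG_sq_le)

/-- the number of the primes in `(x, x + h]` -/
def cnt (h x : ℕ) : ℕ := ((Ioc x (x + h)).filter Nat.Prime).card

theorem dc_eq (R : ℕ → Prop) [DecidablePred R] (w Y h : ℕ) :
    ∑ x ∈ Ico w (w + Y), ((Ioc x (x + h)).filter R).card =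
      ∑ p ∈ (Ioc w (w + Y + h)).filter R, ((Ico w (w + Y)).filter (fun x => x < p ∧ p ≤ x + h)).card := by
  have h1 : ∀ x ∈ Ico w (w + Y), ((Ioc x (x + h)).filter R).card =
      ∑ p ∈ (Ioc w (w + Y + h)).filter R, if x < p ∧ p ≤ x + h then 1 else 0 := by
    intro x hx
    rw [mem_Ico] at hx
    rw [← card_filter]
    congr 1
    ext p
    simp only [mem_filter, mem_Ioc]
    constructor
    · rintro ⟨⟨a, b⟩, c⟩
      exact ⟨⟨⟨by omega, by omega⟩, c⟩, a, b⟩
    · rintro ⟨⟨_, c⟩, a, b⟩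
      exact ⟨⟨a, b⟩, c⟩
  rw [sum_congr rfl h1, sum_comm]
  refine sum_congr rfl fun p _ => ?_
  rw [card_filter]

theorem dc_le (R : ℕ → Prop) [DecidablePred R] (w Y h : ℕ) :
    ∑ x ∈ Ico w (w + Y), ((Ioc x (x + h)).filter R).card ≤ h * ((Ioc w (w + Y + h)).filter R).card := by
  rw [dc_eq, mul_comm, ← smul_eq_mul]
  refine sum_le_card_nsmul _ _ _ fun p _ => ?_
  have h1 : (Ico w (w + Y)).filter (fun x => x < p ∧ p ≤ x + h) ⊆ Ico (p - h) p := by
    intro x hx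
    simp only [mem_filter, mem_Ico] at hx ⊢
    omega
  have h2 := card_le_card h1
  rw [Nat.card_Ico] at h2
  omega

theorem dc_ge (R : ℕ → Prop) [DecidablePred R] (w Y h : ℕ) (hh : 1 ≤ h) :
    h * ((Icc (w + h) (w + Y)).filter R).card ≤ ∑ x ∈ Ico w (w + Y), ((Ioc x (x + h)).filter R).card := by
  rw [dc_eq]
  have h1 : (Icc (w + h) (w + Y)).filter R ⊆ (Ioc w (w + Y + h)).filter R := by
    intro x hx
    simp only [mem_filter, mem_Icc, mem_Ioc] at hx ⊢
    exact ⟨⟨by omega, by omega⟩, hx.2⟩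
  refine le_trans ?_ (sum_le_sum_of_subset h1)
  rw [mul_comm, ← smul_eq_mul]
  refine card_nsmul_le_sum _ _ _ fun p hp => ?_
  simp only [mem_filter, mem_Icc] at hp
  have h2 : Ico (p - h) p ⊆ (Ico w (w + Y)).filter (fun x => x < p ∧ p ≤ x + h) := by
    intro x hx
    simp only [mem_filter, mem_Ico] at hx ⊢
    omega
  have h3 := card_le_card h2
  rw [Nat.card_Ico] at h3
  omega

/-- squares and pairs -/
theorem sq_le (h x : ℕ) : cnt h x ^ 2 ≤ cnt h x +
    2 * ∑ d ∈ Icc 1 h, ((Ioc x (x + h)).filter (fun p => p.Prime ∧ (p + d).Prime)).card := by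
  unfold cnt
  obtain ⟨S, hS⟩ : ∃ S, S = (Ioc x (x + h)).filter Nat.Prime := ⟨_, rfl⟩
  rw [← hS]
  obtain ⟨U, hU⟩ : ∃ U, U = (S ×ˢ S).filter (fun v => v.1 < v.2) := ⟨_, rfl⟩
  have h1 : S.offDiag ⊆ U ∪ U.image Prod.swap := by
    intro v hv
    rw [mem_offDiag] at hv
    rw [mem_union]
    rcases lt_or_gt_of_ne hv.2.2 with h2 | h2
    · left
      rw [hU, mem_filter, mem_product]
      exact ⟨⟨hv.1, hv.2.1⟩, h2⟩
    · right
      rw [mem_image]
      refine ⟨(v.2, v.1), ?_, rfl⟩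
      rw [hU, mem_filter, mem_product]
      exact ⟨⟨hv.2.1, hv.1⟩, h2⟩
  have h2 : S.offDiag.card ≤ U.card + U.card :=
    (card_le_card h1).trans ((card_union_le _ _).trans (Nat.add_le_add_left card_image_le _))
  rw [offDiag_card] at h2
  have h3 : U ⊆ (Icc 1 h).biUnion (fun d =>
      ((Ioc x (x + h)).filter (fun p => p.Prime ∧ (p + d).Prime)).image (fun p => (p, p + d))) := by
    rintro ⟨p, q⟩ hv
    rw [hU, mem_filter, mem_product, hS] at hv
    simp only [mem_filter, mem_Ioc] at hv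
    rw [mem_biUnion]
    refine ⟨q - p, ?_, ?_⟩
    · rw [mem_Icc]
      omega
    · rw [mem_image]
      refine ⟨p, ?_, ?_⟩
      · simp only [mem_filter, mem_Ioc]
        have e : p + (q - p) = q := by omega
        rw [e]
        exact ⟨hv.1.1.1, hv.1.1.2, hv.1.2.2⟩
      · have e : p + (q - p) = q := by omega
        rw [e]
  have h4 : U.card ≤ ∑ d ∈ Icc 1 h, ((Ioc x (x + h)).filter (fun p => p.Prime ∧ (p + d).Prime)).card :=
    (card_le_card h3).trans (card_biUnion_le.trans (sum_le_sum fun d _ => card_image_le))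
  have h5 : S.card ≤ S.card * S.card := Nat.le_mul_self _
  have h6 : S.card ^ 2 = S.card * S.card := sq _
  omega

theorem sumGG : ∃ C : ℝ, 0 < C ∧ ∀ h : ℕ, ∑ d ∈ Icc 1 h, GG d ^ 2 ≤ C * h := by
  obtain ⟨C, hC, hs⟩ := sum_GG_sq_le
  refine ⟨C, hC, fun h => ?_⟩
  have h1 := hs h (Nat.cast_nonneg h)
  have h2 : ∑ d ∈ Icc 1 h, ENNReal.ofReal (GG d ^ 2) ≤ ENNReal.ofReal (C * h) := by
    refine le_trans ?_ h1
    refine le_trans ?_ (ENNReal.sum_le_tsum (Icc 1 h))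
    refine sum_le_sum fun d hd => ?_
    rw [mem_Icc] at hd
    rw [if_pos ⟨hd.1, by exact_mod_cast hd.2⟩]
  rw [← ENNReal.ofReal_sum_of_nonneg (fun i _ => by positivity)] at h2
  exact (ENNReal.ofReal_le_ofReal_iff (by positivity)).1 h2

/-- the number of pairs of primes in a window -/
theorem pairs : ∃ C : ℝ, 0 < C ∧ ∀ w Y h : ℕ, 2 ≤ Y → h ≤ Y →
    ((∑ d ∈ Icc 1 h, ((Ioc w (w + Y + h)).filter (fun p => p.Prime ∧ (p + d).Prime)).card : ℕ) : ℝ) ≤
      C * h * Y / Real.log Y ^ 2 := by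
  obtain ⟨C1, hC1, hs⟩ := sieve_two'
  obtain ⟨C2, hC2, hg⟩ := sumGG
  refine ⟨C1 * 2 * C2, by positivity, fun w Y h hY hh => ?_⟩
  have hYr : (2 : ℝ) ≤ Y := by exact_mod_cast hY
  have hl : 0 < Real.log Y := Real.log_pos (by linarith)
  push_cast
  have h1 : ∀ d ∈ Icc 1 h, (((Ioc w (w + Y + h)).filter (fun p => p.Prime ∧ (p + d).Prime)).card : ℝ) ≤
      GG d ^ 2 * (C1 * (2 * Y) / Real.log Y ^ 2) := by
    intro d hd
    rw [mem_Icc] at hd
    have h2 := hs 1 w 1 (w + d) (Y + h) one_pos one_pos (Nat.coprime_one_left _) (Nat.coprime_one_left _)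
      (by omega) (by omega)
    have e1 : 1 * 1 * (((1 * (w + d) : ℕ) : ℤ) - ((1 * w : ℕ) : ℤ)).natAbs = d := by
      push_cast
      omega
    rw [e1] at h2
    have h3 : ((Ioc w (w + Y + h)).filter (fun p => p.Prime ∧ (p + d).Prime)).card ≤
        ((Icc 1 (Y + h)).filter (fun n => (1 * n + w).Prime ∧ (1 * n + (w + d)).Prime)).card := by
      apply card_le_card_of_injOn (fun p => p - w)
      · intro p hp
        simp only [coe_filter, Set.mem_setOf_eq, mem_Ioc, mem_Icc] at hp ⊢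
        have e2 : 1 * (p - w) + w = p := by omega
        have e3 : 1 * (p - w) + (w + d) = p + d := by omega
        rw [e2, e3]
        exact ⟨by omega, hp.2⟩
      · intro p hp q hq hpq
        simp only [coe_filter, Set.mem_setOf_eq, mem_Ioc] at hp hq
        simp only at hpq
        omega
    have h4 : (((Ioc w (w + Y + h)).filter (fun p => p.Prime ∧ (p + d).Prime)).card : ℝ) ≤
        (((Icc 1 (Y + h)).filter (fun n => (1 * n + w).Prime ∧ (1 * n + (w + d)).Prime)).card : ℝ) := by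
      exact_mod_cast h3
    refine h4.trans (h2.trans ?_)
    have h5 : ((Y + h : ℕ) : ℝ) ≤ 2 * Y := by
      push_cast
      have : (h : ℝ) ≤ Y := by exact_mod_cast hh
      linarith
    have h6 : Real.log Y ≤ Real.log ((Y + h : ℕ) : ℝ) := by
      apply Real.log_le_log (by linarith)
      push_cast
      have : (0 : ℝ) ≤ h := Nat.cast_nonneg h
      linarith
    have h7 : Real.log Y ^ 2 ≤ Real.log ((Y + h : ℕ) : ℝ) ^ 2 := pow_le_pow_left₀ hl.le h6 2
    calc C1 * GG d ^ 2 * ((Y + h : ℕ) : ℝ) / Real.log ((Y + h : ℕ) : ℝ) ^ 2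
        ≤ C1 * GG d ^ 2 * (2 * Y) / Real.log Y ^ 2 := by
          apply div_le_div₀ (by positivity) (mul_le_mul_of_nonneg_left h5 (by positivity)) (by positivity) h7
      _ = GG d ^ 2 * (C1 * (2 * Y) / Real.log Y ^ 2) := by ring
  refine (sum_le_sum h1).trans ?_
  rw [← sum_mul]
  calc (∑ d ∈ Icc 1 h, GG d ^ 2) * (C1 * (2 * Y) / Real.log Y ^ 2)
      ≤ (C2 * h) * (C1 * (2 * Y) / Real.log Y ^ 2) := mul_le_mul_of_nonneg_right (hg h) (by positivity)
    _ = C1 * 2 * C2 * h * Y / Real.log Y ^ 2 := by ring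

/-- The inequality of Paley and Zygmund. -/
theorem pz {S : Finset ℕ} {r : ℕ → ℝ} {A P : ℝ} (hA : 0 < A) (hP : 0 ≤ P) (hr : ∀ x ∈ S, 0 ≤ r x)
    (h1 : A ≤ ∑ x ∈ S, r x) (h2 : ∑ x ∈ S, r x ^ 2 ≤ ∑ x ∈ S, r x + P) :
    A ^ 2 / (4 * (A + P)) ≤ ((S.filter (fun x => A / (2 * S.card) ≤ r x)).card : ℝ) := by
  classical
  obtain ⟨B, hB⟩ : ∃ B, B = ∑ x ∈ S, r x := ⟨_, rfl⟩
  rw [← hB] at h1 h2
  obtain ⟨G, hG⟩ : ∃ G, G = S.filter (fun x => A / (2 * S.card) ≤ r x) := ⟨_, rfl⟩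
  rw [← hG]
  have hB0 : 0 < B := by linarith
  have hS : 0 < S.card := by
    rcases Nat.eq_zero_or_pos S.card with h | h
    · rw [card_eq_zero] at h
      rw [h, sum_empty] at hB
      linarith
    · exact h
  have hSr : (0 : ℝ) < S.card := by exact_mod_cast hS
  have h3 : ∑ x ∈ G, r x + ∑ x ∈ S.filter (fun x => ¬ A / (2 * S.card) ≤ r x), r x = B := by
    rw [hG, hB]
    exact sum_filter_add_sum_filter_not S _ _
  have h4 : ∑ x ∈ S.filter (fun x => ¬ A / (2 * S.card) ≤ r x), r x ≤ A / 2 := by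
    calc ∑ x ∈ S.filter (fun x => ¬ A / (2 * S.card) ≤ r x), r x
        ≤ ∑ x ∈ S.filter (fun x => ¬ A / (2 * S.card) ≤ r x), A / (2 * S.card) :=
          sum_le_sum fun x hx => (not_le.1 (mem_filter.1 hx).2).le
      _ = ((S.filter (fun x => ¬ A / (2 * S.card) ≤ r x)).card : ℝ) * (A / (2 * S.card)) := by
          rw [sum_const, nsmul_eq_mul]
      _ ≤ (S.card : ℝ) * (A / (2 * S.card)) := by
          apply mul_le_mul_of_nonneg_right _ (by positivity)
          exact_mod_cast card_filter_le _ _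
      _ = A / 2 := by
          field_simp
  have h5 : B / 2 ≤ ∑ x ∈ G, r x := by linarith
  have h6 : (∑ x ∈ G, r x) ^ 2 ≤ (G.card : ℝ) * ∑ x ∈ G, r x ^ 2 := by
    have := sum_mul_sq_le_sq_mul_sq G (fun _ => (1 : ℝ)) r
    simpa using this
  have h7 : ∑ x ∈ G, r x ^ 2 ≤ B + P := by
    refine le_trans ?_ h2
    rw [hG]
    exact sum_le_sum_of_subset_of_nonneg (filter_subset _ _) fun x _ _ => sq_nonneg _
  have h8 : (B / 2) ^ 2 ≤ (G.card : ℝ) * (B + P) :=
    (pow_le_pow_left₀ (by linarith) h5 2).trans (h6.trans (mul_le_mul_of_nonneg_left h7 (Nat.cast_nonneg _)))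
  have hBP : 0 < B + P := by linarith
  have h9 : B ^ 2 / (4 * (B + P)) ≤ G.card := by
    rw [div_le_iff₀ (by positivity)]
    nlinarith
  refine le_trans ?_ h9
  rw [div_le_div_iff₀ (by positivity) (by positivity)]
  have e1 : A ^ 2 * B ≤ B ^ 2 * A := by nlinarith [mul_pos hA hB0]
  have e2 : A ^ 2 * P ≤ B ^ 2 * P := mul_le_mul_of_nonneg_right (pow_le_pow_left₀ hA.le h1 2) hP
  nlinarith

/-- Many intervals of length `h` with primes. -/
theorem many : ∃ C : ℝ, 0 < C ∧ ∀ w Y h : ℕ, 2 ≤ Y → 1 ≤ h → h ≤ Y → ∀ A : ℝ, 0 < A →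
    A ≤ h * ((Icc (w + h) (w + Y)).filter Nat.Prime).card →
    A ^ 2 / (4 * (A + C * h ^ 2 * Y / Real.log Y ^ 2)) ≤
      (((Ico w (w + Y)).filter (fun x => A / (2 * Y) ≤ (cnt h x : ℝ))).card : ℝ) := by
  classical
  obtain ⟨C, hC, hp⟩ := pairs
  refine ⟨2 * C, by positivity, fun w Y h hY hh hhY A hA hA2 => ?_⟩
  have h1 := dc_ge Nat.Prime w Y h hh
  have h2 : (A : ℝ) ≤ ∑ x ∈ Ico w (w + Y), (cnt h x : ℝ) := by
    refine hA2.trans ?_
    have : ((h * ((Icc (w + h) (w + Y)).filter Nat.Prime).card : ℕ) : ℝ) ≤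
        ((∑ x ∈ Ico w (w + Y), ((Ioc x (x + h)).filter Nat.Prime).card : ℕ) : ℝ) := by exact_mod_cast h1
    push_cast at this
    exact this
  have h3 : ∑ x ∈ Ico w (w + Y), (cnt h x : ℝ) ^ 2 ≤ ∑ x ∈ Ico w (w + Y), (cnt h x : ℝ) +
      2 * C * h ^ 2 * Y / Real.log Y ^ 2 := by
    have h4 : ∑ x ∈ Ico w (w + Y), cnt h x ^ 2 ≤ ∑ x ∈ Ico w (w + Y), cnt h x +
        2 * (h * ∑ d ∈ Icc 1 h, ((Ioc w (w + Y + h)).filter (fun p => p.Prime ∧ (p + d).Prime)).card) := by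
      calc ∑ x ∈ Ico w (w + Y), cnt h x ^ 2 ≤ ∑ x ∈ Ico w (w + Y), (cnt h x +
            2 * ∑ d ∈ Icc 1 h, ((Ioc x (x + h)).filter (fun p => p.Prime ∧ (p + d).Prime)).card) :=
            sum_le_sum fun x _ => sq_le h x
        _ = ∑ x ∈ Ico w (w + Y), cnt h x + 2 * ∑ d ∈ Icc 1 h, ∑ x ∈ Ico w (w + Y),
            ((Ioc x (x + h)).filter (fun p => p.Prime ∧ (p + d).Prime)).card := by
            rw [sum_add_distrib, ← mul_sum, sum_comm]
        _ ≤ _ := by
            apply Nat.add_le_add_left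
            apply Nat.mul_le_mul_left
            rw [mul_sum]
            exact sum_le_sum fun d _ => dc_le _ w Y h
    have h5 := hp w Y h hY hhY
    have h6 : ((∑ x ∈ Ico w (w + Y), cnt h x ^ 2 : ℕ) : ℝ) ≤ ((∑ x ∈ Ico w (w + Y), cnt h x +
        2 * (h * ∑ d ∈ Icc 1 h, ((Ioc w (w + Y + h)).filter (fun p => p.Prime ∧ (p + d).Prime)).card) : ℕ) : ℝ) := by
      exact_mod_cast h4
    rw [Nat.cast_add, Nat.cast_mul, Nat.cast_mul] at h6
    push_cast at h6 h5
    have h7 := mul_le_mul_of_nonneg_left h5 (show (0 : ℝ) ≤ 2 * h by positivity)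
    have h8 : 2 * (h : ℝ) * (C * h * Y / Real.log Y ^ 2) = 2 * C * h ^ 2 * Y / Real.log Y ^ 2 := by ring
    linarith
  have hYr : (2 : ℝ) ≤ Y := by exact_mod_cast hY
  have h9 := pz (S := Ico w (w + Y)) (r := fun x => (cnt h x : ℝ)) hA
    (P := 2 * C * h ^ 2 * Y / Real.log Y ^ 2) (by positivity) (fun x _ => Nat.cast_nonneg _) h2 h3
  have e : (Ico w (w + Y)).card = Y := by rw [Nat.card_Ico]; omega
  rw [e] at h9
  exact h9

end Run7.h946.PW
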