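import Pool.Agent.Run7.h946.PW.Mean
import Pool.Agent.Run7.h946.PW.Sieve

/-!
# Harmonic averages: from squares to all levels, and the second moment of the prime counts
-/

set_option autoImplicit false

namespace Run7.h946.PW

open Finset Filter Topology MeasureTheory

/-- at the squares -/
theorem at_squares {a : ℕ} (g : ℕ → ℕ → ℝ) (β m : ℝ)
    (h1 : ∀ η : ℝ, 0 < η → ∀ᶠ s : ℕ in atTop, |∑ i ∈ range ((s + 1) ^ 2), sb a g β i| < η * ((s + 1 : ℕ) : ℝ) ^ 2)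
    (h2 : Tendsto (fun n : ℕ => avg a g n ⌊β * (a : ℝ) ^ n⌋₊) atTop (𝓝 m)) {η : ℝ} (hη : 0 < η) :
    ∀ᶠ s : ℕ in atTop, |∑ n ∈ Ico 1 (2 ^ ((s + 1) ^ 2)), g n ⌊β * (a : ℝ) ^ n⌋₊ / n -
      m * ∑ n ∈ (Ico 1 (2 ^ ((s + 1) ^ 2)) : Finset ℕ), (1 : ℝ) / n| ≤ 3 * η * ((s + 1 : ℕ) : ℝ) ^ 2 := by
  obtain ⟨v, hv⟩ : ∃ v : ℕ → ℝ, v = fun n => avg a g n ⌊β * (a : ℝ) ^ n⌋₊ := ⟨_, rfl⟩
  rw [← hv] at h2
  obtain ⟨n₀, hn₀⟩ := Metric.tendsto_atTop.1 h2 η hη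
  obtain ⟨C, hC⟩ : ∃ C, C = ∑ n ∈ range n₀, |v n - m| / n := ⟨_, rfl⟩
  have hC0 : 0 ≤ C := by rw [hC]; exact sum_nonneg fun n _ => by positivity
  obtain ⟨s₁, hs₁⟩ := exists_nat_ge ((C + η) / η)
  filter_upwards [h1 η hη, eventually_ge_atTop (s₁ + 4)] with s hs hs2
  obtain ⟨I, hI⟩ : ∃ I, I = (s + 1) ^ 2 := ⟨_, rfl⟩
  have e0 : ((s + 1 : ℕ) : ℝ) ^ 2 = I := by rw [hI]; push_cast; ring
  rw [e0, ← hI] at hs
  rw [e0, ← hI]
  have e1 : ∑ n ∈ Ico 1 (2 ^ I), g n ⌊β * (a : ℝ) ^ n⌋₊ / n =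
      ∑ i ∈ range I, sb a g β i + ∑ n ∈ Ico 1 (2 ^ I), v n / n := by
    rw [← blocks_eq, ← blocks_eq, ← sum_add_distrib]
    refine sum_congr rfl fun i _ => ?_
    unfold sb dif
    rw [← sum_add_distrib]
    refine sum_congr rfl fun n _ => ?_
    rw [hv]
    ring
  have e2 : ∑ n ∈ Ico 1 (2 ^ I), g n ⌊β * (a : ℝ) ^ n⌋₊ / n - m * ∑ n ∈ (Ico 1 (2 ^ I) : Finset ℕ), (1 : ℝ) / n =
      ∑ i ∈ range I, sb a g β i + ∑ n ∈ (Ico 1 (2 ^ I) : Finset ℕ), (v n - m) / n := by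
    rw [e1, mul_sum, add_sub_assoc, ← sum_sub_distrib]
    congr 1
    refine sum_congr rfl fun n _ => ?_
    ring
  rw [e2]
  have h3 : |∑ n ∈ (Ico 1 (2 ^ I) : Finset ℕ), (v n - m) / n| ≤ C + η * (1 + I * Real.log 2) := by
    refine (abs_sum_le_sum_abs _ _).trans ?_
    have h4 : ∀ n ∈ (Ico 1 (2 ^ I) : Finset ℕ), |(v n - m) / n| ≤
        (if n ∈ range n₀ then |v n - m| / n else 0) + η * (1 / n) := by
      intro n _
      rw [abs_div, Nat.abs_cast]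
      split_ifs with hc
      · have : 0 ≤ η * (1 / (n : ℝ)) := by positivity
        linarith
      · rw [mem_range, not_lt] at hc
        have h5 := hn₀ n hc
        rw [Real.dist_eq] at h5
        rw [zero_add, mul_one_div]
        exact div_le_div_of_nonneg_right h5.le (Nat.cast_nonneg _)
    refine (sum_le_sum h4).trans ?_
    rw [sum_add_distrib, ← mul_sum]
    apply add_le_add
    · rw [← sum_filter, hC]
      refine sum_le_sum_of_subset_of_nonneg ?_ fun n _ _ => by positivity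
      intro n hn
      exact (mem_filter.1 hn).2
    · exact mul_le_mul_of_nonneg_left (harm_log I).2 hη.le
  have h5 := abs_add_le (∑ i ∈ range I, sb a g β i) (∑ n ∈ (Ico 1 (2 ^ I) : Finset ℕ), (v n - m) / n)
  have h6 := Real.log_two_lt_d9
  have hsI : (s : ℝ) + 1 ≤ I := by
    rw [← e0]
    push_cast
    nlinarith [(Nat.cast_nonneg s : (0 : ℝ) ≤ s)]
  have hs3 : ((s₁ + 4 : ℕ) : ℝ) ≤ s := by exact_mod_cast hs2
  push_cast at hs3
  have h7 : C + η ≤ η * (I * (3 / 10)) := by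
    rw [div_le_iff₀ hη] at hs₁
    have hI16 : 4 * (s : ℝ) ≤ I := by
      rw [← e0]
      push_cast
      have : (4 : ℝ) ≤ s := by linarith [(Nat.cast_nonneg s₁ : (0 : ℝ) ≤ s₁)]
      nlinarith
    have : (s₁ : ℝ) ≤ I * (3 / 10) := by linarith
    nlinarith
  have hI0 : (0 : ℝ) ≤ I := Nat.cast_nonneg I
  have h8 : η * (I * Real.log 2) ≤ η * (I * (7 / 10)) :=
    mul_le_mul_of_nonneg_left (mul_le_mul_of_nonneg_left (by linarith) hI0) hη.le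
  linarith

/-- **All levels.** -/
theorem mean_of {a : ℕ} {g : ℕ → ℕ → ℝ} (hg : ∀ n x, 0 ≤ g n x) (β m : ℝ) (hm : 0 ≤ m)
    (h1 : ∀ η : ℝ, 0 < η → ∀ᶠ s : ℕ in atTop, |∑ i ∈ range ((s + 1) ^ 2), sb a g β i| < η * ((s + 1 : ℕ) : ℝ) ^ 2)
    (h2 : Tendsto (fun n : ℕ => avg a g n ⌊β * (a : ℝ) ^ n⌋₊) atTop (𝓝 m)) :
    Tendsto (fun N : ℕ => (∑ n ∈ Icc 1 N, g n ⌊β * (a : ℝ) ^ n⌋₊ / n) / Real.log N) atTop (𝓝 m) := by
  rw [Metric.tendsto_atTop]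
  intro ε hε
  obtain ⟨η, hη⟩ : ∃ η, η = ε / 48 := ⟨_, rfl⟩
  have hη0 : 0 < η := by rw [hη]; positivity
  obtain ⟨s₀, hs₀⟩ := eventually_atTop.1 (at_squares g β m h1 h2 hη0)
  obtain ⟨t₁, ht₁⟩ := exists_nat_gt (16 * m / ε)
  refine ⟨2 ^ ((s₀ + t₁ + 2) ^ 2), fun N hN => ?_⟩
  obtain ⟨I, hI⟩ : ∃ I, I = Nat.log 2 N := ⟨_, rfl⟩
  have hN0 : N ≠ 0 := by
    have : 0 < 2 ^ ((s₀ + t₁ + 2) ^ 2) := by positivity
    omega
  have hI1 : 2 ^ I ≤ N := by rw [hI]; exact Nat.pow_log_le_self 2 hN0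
  have hI2 : N < 2 ^ (I + 1) := by rw [hI]; exact Nat.lt_pow_succ_log_self (by norm_num) N
  have hI3 : (s₀ + t₁ + 2) ^ 2 ≤ I := by
    have : 2 ^ ((s₀ + t₁ + 2) ^ 2) < 2 ^ (I + 1) := lt_of_le_of_lt hN hI2
    have := (Nat.pow_lt_pow_iff_right (by norm_num : 1 < 2)).1 this
    omega
  obtain ⟨t, ht⟩ : ∃ t, t = Nat.sqrt I := ⟨_, rfl⟩
  have ht1 : t * t ≤ I := by rw [ht]; exact Nat.sqrt_le I
  have ht2 : I < (t + 1) * (t + 1) := by rw [ht]; exact Nat.lt_succ_sqrt I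
  have ht3 : s₀ + t₁ + 2 ≤ t := by
    rw [ht, Nat.le_sqrt, ← sq]
    exact hI3
  have hlow := hs₀ (t - 1) (by omega)
  have hupp := hs₀ t (by omega)
  have e1 : t - 1 + 1 = t := by omega
  rw [e1] at hlow
  obtain ⟨W, hW⟩ : ∃ W, W = ∑ n ∈ Icc 1 N, g n ⌊β * (a : ℝ) ^ n⌋₊ / n := ⟨_, rfl⟩
  have hNlow : 2 ^ (t ^ 2) ≤ N := le_trans (Nat.pow_le_pow_right (by norm_num) (by rw [sq]; exact ht1)) hI1
  have hNupp : N < 2 ^ ((t + 1) ^ 2) :=
    lt_of_lt_of_le hI2 (Nat.pow_le_pow_right (by norm_num) (by rw [sq]; omega))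
  have hW1 : ∑ n ∈ Ico 1 (2 ^ (t ^ 2)), g n ⌊β * (a : ℝ) ^ n⌋₊ / n ≤ W := by
    rw [hW]
    refine sum_le_sum_of_subset_of_nonneg ?_ fun n _ _ => div_nonneg (hg _ _) (Nat.cast_nonneg _)
    intro n hn
    rw [mem_Ico] at hn
    rw [mem_Icc]
    omega
  have hW2 : W ≤ ∑ n ∈ Ico 1 (2 ^ ((t + 1) ^ 2)), g n ⌊β * (a : ℝ) ^ n⌋₊ / n := by
    rw [hW]
    refine sum_le_sum_of_subset_of_nonneg ?_ fun n _ _ => div_nonneg (hg _ _) (Nat.cast_nonneg _)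
    intro n hn
    rw [mem_Icc] at hn
    rw [mem_Ico]
    omega
  have g1 := (abs_le.1 hlow).1
  have g2 := (abs_le.1 hupp).2
  have g3 := (harm_log (t ^ 2)).1
  have g4 := (harm_log ((t + 1) ^ 2)).2
  obtain ⟨τ, hτ⟩ : ∃ τ : ℝ, τ = t := ⟨_, rfl⟩
  have hτ2 : 2 ≤ τ := by rw [hτ]; exact_mod_cast (by omega : 2 ≤ t)
  have hτ3 : 16 * m / ε ≤ τ := by
    rw [hτ]
    exact ht₁.le.trans (by exact_mod_cast (by omega : t₁ ≤ t))
  push_cast at g1 g2 g3 g4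
  rw [← hτ] at g1 g2 g3 g4
  have g5 := mul_le_mul_of_nonneg_left g3 hm
  have g6 := mul_le_mul_of_nonneg_left g4 hm
  have l1 := Real.log_two_gt_d9
  have l2 := Real.log_two_lt_d9
  have hNr : (0 : ℝ) < N := by exact_mod_cast Nat.pos_of_ne_zero hN0
  have n1 : τ ^ 2 * Real.log 2 ≤ Real.log N := by
    have : Real.log ((2 : ℝ) ^ (t ^ 2)) ≤ Real.log N := by
      apply Real.log_le_log (by positivity)
      exact_mod_cast hNlow
    rw [Real.log_pow] at this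
    push_cast at this
    rw [hτ]
    exact this
  have n2 : Real.log N ≤ (τ + 1) ^ 2 * Real.log 2 := by
    have : Real.log N ≤ Real.log ((2 : ℝ) ^ ((t + 1) ^ 2)) := by
      apply Real.log_le_log hNr
      exact_mod_cast hNupp.le
    rw [Real.log_pow] at this
    push_cast at this
    rw [hτ]
    exact this
  have hlN : 0 < Real.log N := lt_of_lt_of_le (by positivity) n1
  have n3 : τ ^ 2 / 2 ≤ Real.log N := by nlinarith
  have n4 := mul_le_mul_of_nonneg_left n1 hm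
  have n5 := mul_le_mul_of_nonneg_left n2 hm
  have k0 : 0 ≤ m * (2 * τ + 1) := by positivity
  have k1 : m * (2 * τ + 1) * Real.log 2 ≤ m * (2 * τ + 1) := by
    calc m * (2 * τ + 1) * Real.log 2 ≤ m * (2 * τ + 1) * 1 := mul_le_mul_of_nonneg_left (by linarith) k0
      _ = _ := mul_one _
  have ex : m * ((τ + 1) ^ 2 * Real.log 2) = m * (τ ^ 2 * Real.log 2) + m * (2 * τ + 1) * Real.log 2 := by ring
  have ex2 : m * (1 + (τ + 1) ^ 2 * Real.log 2) = m + m * ((τ + 1) ^ 2 * Real.log 2) := by ring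
  have ex3 : m * (2 * τ + 2) = m * (2 * τ + 1) + m := by ring
  have k2 : W - m * Real.log N ≤ m * (2 * τ + 2) + 3 * η * (τ + 1) ^ 2 := by linarith
  have k3 : -(m * (2 * τ + 2) + 3 * η * τ ^ 2) ≤ W - m * Real.log N := by linarith
  have k4 : 3 * η * (τ + 1) ^ 2 ≤ 9 * η * τ ^ 2 := by
    have h7 : (τ + 1) ^ 2 ≤ 3 * τ ^ 2 := by nlinarith
    calc 3 * η * (τ + 1) ^ 2 ≤ 3 * η * (3 * τ ^ 2) := mul_le_mul_of_nonneg_left h7 (by positivity)
      _ = 9 * η * τ ^ 2 := by ring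
  have k5 : m * (2 * τ + 2) ≤ 3 * m * τ := by
    calc m * (2 * τ + 2) ≤ m * (3 * τ) := mul_le_mul_of_nonneg_left (by linarith) hm
      _ = 3 * m * τ := by ring
  have k6 : 3 * m * τ ≤ 3 / 16 * ε * τ ^ 2 := by
    rw [div_le_iff₀ hε] at hτ3
    calc 3 * m * τ = 3 / 16 * τ * (16 * m) := by ring
      _ ≤ 3 / 16 * τ * (τ * ε) := mul_le_mul_of_nonneg_left hτ3 (by positivity)
      _ = 3 / 16 * ε * τ ^ 2 := by ring
  have k65 : 3 * η * τ ^ 2 ≤ 9 * η * τ ^ 2 := by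
    have : 0 ≤ η * τ ^ 2 := by positivity
    linarith
  have k7 : |W - m * Real.log N| ≤ 3 / 16 * ε * τ ^ 2 + 9 * η * τ ^ 2 := by
    rw [abs_le]
    constructor <;> linarith
  rw [← hW, Real.dist_eq]
  have k8 : W / Real.log N - m = (W - m * Real.log N) / Real.log N := by
    rw [sub_div, mul_div_assoc, div_self hlN.ne', mul_one]
  rw [k8, abs_div, abs_of_pos hlN, div_lt_iff₀ hlN]
  have hτ0 : 0 < ε * τ ^ 2 := by positivity
  have k9 : ε * (τ ^ 2 / 2) ≤ ε * Real.log N := mul_le_mul_of_nonneg_left n3 hε.le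
  have k10 : 9 * η * τ ^ 2 = 3 / 16 * ε * τ ^ 2 := by rw [hη]; ring
  linarith

/-- the number of the primes in `(x, x + h n]`, normalised -/
noncomputable def gm (h : ℕ → ℕ) (n x : ℕ) : ℝ := (cnt (h n) x : ℝ) * n / h n

theorem gm_nonneg (h : ℕ → ℕ) (n x : ℕ) : 0 ≤ gm h n x := by unfold gm; positivity

theorem cnt_le_h (h x : ℕ) : cnt h x ≤ h := by
  unfold cnt
  refine (card_filter_le _ _).trans ?_
  rw [Nat.card_Ioc]
  omega

theorem gm_le (h : ℕ → ℕ) (n x : ℕ) : gm h n x ≤ n := by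
  unfold gm
  rcases Nat.eq_zero_or_pos (h n) with h0 | h0
  · rw [h0]
    simp
  · rw [div_le_iff₀ (by exact_mod_cast h0)]
    have h1 : (cnt (h n) x : ℝ) ≤ h n := by exact_mod_cast cnt_le_h (h n) x
    have h2 : (0 : ℝ) ≤ n := Nat.cast_nonneg n
    nlinarith

/-- the second moment -/
theorem second_moment : ∃ C : ℝ, 0 < C ∧ ∀ w Y h : ℕ, 2 ≤ Y → h ≤ Y →
    ∑ x ∈ Ico w (w + Y), (cnt h x : ℝ) ^ 2 ≤ Y + C * (h * (Y / Real.log Y)) + C * (h ^ 2 * (Y / Real.log Y ^ 2)) := by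
  classical
  obtain ⟨C, hC, hp⟩ := pairs
  refine ⟨2 * C + 1, by positivity, fun w Y h hY hhY => ?_⟩
  have hYr : (2 : ℝ) ≤ Y := by exact_mod_cast hY
  have hl : 0 < Real.log Y := Real.log_pos (by linarith)
  obtain ⟨S, hS⟩ : ∃ S, S = ∑ x ∈ Ico w (w + Y), (cnt h x : ℝ) := ⟨_, rfl⟩
  obtain ⟨P, hP⟩ : ∃ P, P = 2 * C * h ^ 2 * Y / Real.log Y ^ 2 := ⟨_, rfl⟩
  have hP0 : 0 ≤ P := by rw [hP]; positivity
  have hS0 : 0 ≤ S := by rw [hS]; exact sum_nonneg fun x _ => Nat.cast_nonneg _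
  have h3 : ∑ x ∈ Ico w (w + Y), (cnt h x : ℝ) ^ 2 ≤ S + P := by
    have h4 : ∑ x ∈ Ico w (w + Y), cnt h x ^ 2 ≤ ∑ x ∈ Ico w (w + Y), cnt h x +
        2 * (h * ∑ d ∈ Icc 1 h, ((Ioc w (w + Y + h)).filter (fun p => p.Prime ∧ (p + d).Prime)).card) := by
      calc ∑ x ∈ Ico w (w + Y), cnt h x ^ 2 ≤ ∑ x ∈ Ico w (w + Y), (cnt h x +
            2 * ∑ d ∈ Icc 1 h, ((Ioc x (x + h)).filter (fun p => p.Prime ∧ (p + d).Prime)).card) :=
            sum_le_sum fun x _ => sq_le h x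
        _ = ∑ x ∈ Ico w (w + Y), cnt h x + 2 * ∑ d ∈ Icc 1 h, ∑ x ∈ Ico w (w + Y),
            ((Ioc x (x + h)).filter (fun p => p.Prime ∧ (p + d).Prime)).card := by
            rw [sum_add_distrib, ← mul_sum, sum_comm]
        _ ≤ _ := by
            apply Nat.add_le_add_left
            apply Nat.mul_le_mul_left
            rw [mul_sum]
            exact sum_le_sum fun d _ => dc_le _ w Y h
    have h5 := hp w Y h hY hhY
    have h6 : ((∑ x ∈ Ico w (w + Y), cnt h x ^ 2 : ℕ) : ℝ) ≤ ((∑ x ∈ Ico w (w + Y), cnt h x +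
        2 * (h * ∑ d ∈ Icc 1 h, ((Ioc w (w + Y + h)).filter (fun p => p.Prime ∧ (p + d).Prime)).card) : ℕ) : ℝ) := by
      exact_mod_cast h4
    rw [Nat.cast_add, Nat.cast_mul, Nat.cast_mul] at h6
    push_cast at h6 h5
    have h7 := mul_le_mul_of_nonneg_left h5 (show (0 : ℝ) ≤ 2 * h by positivity)
    have h8 : 2 * (h : ℝ) * (C * h * Y / Real.log Y ^ 2) = P := by rw [hP]; ring
    rw [hS]
    linarith
  -- the first moment
  have h4 : S ^ 2 ≤ Y * (S + P) := by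
    have h5 := sum_mul_sq_le_sq_mul_sq (Ico w (w + Y)) (fun _ => (1 : ℝ)) (fun x => (cnt h x : ℝ))
    simp only [one_mul, one_pow, sum_const, Nat.card_Ico, nsmul_eq_mul, mul_one] at h5
    rw [← hS] at h5
    have e : ((w + Y - w : ℕ) : ℝ) = Y := by
      congr 1
      omega
    rw [e] at h5
    exact h5.trans (mul_le_mul_of_nonneg_left h3 (by linarith))
  obtain ⟨z, hz⟩ : ∃ z, z = (2 * C + 1) * (h * (Y / Real.log Y)) := ⟨_, rfl⟩
  have hz0 : 0 ≤ z := by rw [hz]; positivity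
  have hz2 : Y * P ≤ z ^ 2 := by
    have e1 : Y * P = (2 * C) * (h * (Y / Real.log Y)) ^ 2 := by
      rw [hP]
      field_simp
    have e2 : z ^ 2 = (2 * C + 1) ^ 2 * (h * (Y / Real.log Y)) ^ 2 := by rw [hz]; ring
    rw [e1, e2]
    apply mul_le_mul_of_nonneg_right _ (by positivity)
    nlinarith
  have h5 : S ≤ Y + z := by
    by_contra hc
    push Not at hc
    have h6 : (Y + z) * z < S * (S - Y) := by
      have a1 : z < S - Y := by linarith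
      have a2 : 0 < S := by linarith
      nlinarith
    nlinarith
  have h6 : P = 2 * C * (h ^ 2 * (Y / Real.log Y ^ 2)) := by rw [hP]; ring
  have h7 : 2 * C * (h ^ 2 * (Y / Real.log Y ^ 2)) ≤ (2 * C + 1) * ((h : ℝ) ^ 2 * (Y / Real.log Y ^ 2)) :=
    mul_le_mul_of_nonneg_right (by linarith) (by positivity)
  rw [hz] at h5
  linarith

/-- the second moments of the normalised counts are bounded -/
theorem gm_second {a : ℕ} (ha : 2 ≤ a) (T : ℕ) (hT : 1 ≤ T) (h : ℕ → ℕ) {ε : ℝ} (hε : 0 < ε) (K : ℕ)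
    (hh : ∀ᶠ n : ℕ in atTop, ε * n ≤ h n ∧ h n ≤ (n + 1) ^ K) : ∃ Q : ℝ, 0 ≤ Q ∧ ∀ n, 1 ≤ n →
      ∑ y ∈ range (T * a ^ n), gm h n y ^ 2 ≤ Q * (T * a ^ n : ℕ) := by
  obtain ⟨C, hC, hs⟩ := second_moment
  obtain ⟨n₁, hn₁⟩ := eventually_atTop.1 hh
  have hpow : ∀ᶠ n : ℕ in atTop, (n + 1) ^ K ≤ T * a ^ n := by
    have h1 : Tendsto (fun n : ℕ => ((n : ℝ)) ^ K / (a : ℝ) ^ n) atTop (𝓝 0) :=
      tendsto_pow_const_div_const_pow_of_one_lt K (by exact_mod_cast (by omega : 1 < a))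
    have h2 : ∀ᶠ n : ℕ in atTop, ((n : ℝ)) ^ K / (a : ℝ) ^ n < 1 / (2 ^ K) :=
      h1.eventually_lt_const (by positivity)
    filter_upwards [h2, eventually_ge_atTop 1] with n hn hn1
    have haM : (0 : ℝ) < (a : ℝ) ^ n := by
      have : (0 : ℝ) < a := by exact_mod_cast (by omega : 0 < a)
      positivity
    rw [div_lt_div_iff₀ haM (by positivity)] at hn
    have hn1r : (1 : ℝ) ≤ n := by exact_mod_cast hn1
    have h3 : ((n : ℝ) + 1) ^ K ≤ (a : ℝ) ^ n := by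
      calc ((n : ℝ) + 1) ^ K ≤ (2 * n) ^ K := pow_le_pow_left₀ (by positivity) (by linarith) K
        _ = (n : ℝ) ^ K * 2 ^ K := by rw [mul_pow]; ring
        _ ≤ (a : ℝ) ^ n := by linarith
    have h4 : (n + 1) ^ K ≤ a ^ n := by exact_mod_cast h3
    exact h4.trans (Nat.le_mul_of_pos_left _ hT)
  obtain ⟨n₂, hn₂⟩ := eventually_atTop.1 hpow
  obtain ⟨n₃, hn₃⟩ : ∃ n₃, n₃ = n₁ + n₂ + 1 := ⟨_, rfl⟩
  refine ⟨(n₃ : ℝ) ^ 2 + (1 / ε ^ 2 + 2 * C / ε + 4 * C), by positivity, fun n hn => ?_⟩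
  obtain ⟨Y, hY⟩ : ∃ Y, Y = T * a ^ n := ⟨_, rfl⟩
  rw [← hY]
  have hY0 : (0 : ℝ) ≤ Y := Nat.cast_nonneg Y
  rcases lt_or_ge n n₃ with hc | hc
  · have h1 : ∑ y ∈ range Y, gm h n y ^ 2 ≤ (n₃ : ℝ) ^ 2 * Y := by
      calc ∑ y ∈ range Y, gm h n y ^ 2 ≤ ∑ y ∈ range Y, (n₃ : ℝ) ^ 2 := by
            refine sum_le_sum fun y _ => ?_
            have h2 := gm_le h n y
            have h3 : (n : ℝ) ≤ n₃ := by exact_mod_cast hc.le
            exact pow_le_pow_left₀ (gm_nonneg h n y) (h2.trans h3) 2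
        _ = (n₃ : ℝ) ^ 2 * Y := by rw [sum_const, card_range, nsmul_eq_mul]; ring
    have h2 : 0 ≤ (1 / ε ^ 2 + 2 * C / ε + 4 * C) * Y := by positivity
    linarith
  · obtain ⟨a1, a2⟩ := hn₁ n (by omega)
    have a3 := hn₂ n (by omega)
    rw [← hY] at a3
    have hnR : (1 : ℝ) ≤ n := by exact_mod_cast hn
    have hY2 : 2 ≤ Y := by
      rw [hY]
      calc 2 ≤ a := ha
        _ ≤ a ^ n := Nat.le_self_pow (by omega) a
        _ ≤ T * a ^ n := Nat.le_mul_of_pos_left _ hT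
    have b1 := hs 0 Y (h n) hY2 (a2.trans a3)
    have e1 : Ico 0 (0 + Y) = range Y := by rw [zero_add]; ext x; simp
    rw [e1] at b1
    have hh0 : (0 : ℝ) < h n := lt_of_lt_of_le (by positivity) a1
    have hlY : (n : ℝ) * (6 / 10) ≤ Real.log Y := by
      have c1 : (2 : ℝ) ^ n ≤ Y := by
        have c2 : 2 ^ n ≤ a ^ n := Nat.pow_le_pow_left ha n
        have c3 : a ^ n ≤ Y := by rw [hY]; exact Nat.le_mul_of_pos_left _ hT
        exact_mod_cast c2.trans c3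
      have c4 := Real.log_le_log (by positivity) c1
      rw [Real.log_pow] at c4
      have c5 := Real.log_two_gt_d9
      nlinarith
    have hlY0 : 0 < Real.log Y := by nlinarith
    have e2 : ∑ y ∈ range Y, gm h n y ^ 2 = (n / h n) ^ 2 * ∑ y ∈ range Y, (cnt (h n) y : ℝ) ^ 2 := by
      rw [mul_sum]
      refine sum_congr rfl fun y _ => ?_
      unfold gm
      ring
    rw [e2]
    refine (mul_le_mul_of_nonneg_left b1 (by positivity)).trans ?_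
    have d1 : (n : ℝ) / h n ≤ 1 / ε := by
      rw [div_le_div_iff₀ hh0 hε]
      linarith
    have d2 : (n : ℝ) / Real.log Y ≤ 2 := by
      rw [div_le_iff₀ hlY0]
      nlinarith
    have d3 : 0 ≤ (n : ℝ) / h n := by positivity
    have d4 : 0 ≤ (n : ℝ) / Real.log Y := by positivity
    have e3 : ((n : ℝ) / h n) ^ 2 * (Y + C * (h n * (Y / Real.log Y)) + C * ((h n : ℝ) ^ 2 * (Y / Real.log Y ^ 2))) =
        ((n : ℝ) / h n) ^ 2 * Y + C * ((n / h n) * (n / Real.log Y)) * Y + C * (n / Real.log Y) ^ 2 * Y := by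
      field_simp
    rw [e3]
    have f1 : ((n : ℝ) / h n) ^ 2 ≤ 1 / ε ^ 2 := by
      calc ((n : ℝ) / h n) ^ 2 ≤ (1 / ε) ^ 2 := pow_le_pow_left₀ d3 d1 2
        _ = 1 / ε ^ 2 := by rw [div_pow, one_pow]
    have f2 : (n : ℝ) / h n * (n / Real.log Y) ≤ 1 / ε * 2 := mul_le_mul d1 d2 d4 (by positivity)
    have f3 : ((n : ℝ) / Real.log Y) ^ 2 ≤ 4 := by
      calc ((n : ℝ) / Real.log Y) ^ 2 ≤ 2 ^ 2 := pow_le_pow_left₀ d4 d2 2
        _ = 4 := by norm_num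
    have g1 := mul_le_mul_of_nonneg_right f1 hY0
    have g2 : C * ((n : ℝ) / h n * (n / Real.log Y)) * Y ≤ C * (1 / ε * 2) * Y :=
      mul_le_mul_of_nonneg_right (mul_le_mul_of_nonneg_left f2 hC.le) hY0
    have g3 : C * ((n : ℝ) / Real.log Y) ^ 2 * Y ≤ C * 4 * Y :=
      mul_le_mul_of_nonneg_right (mul_le_mul_of_nonneg_left f3 hC.le) hY0
    have g4 : 0 ≤ (n₃ : ℝ) ^ 2 * Y := by positivity
    have e4 : ((n₃ : ℝ) ^ 2 + (1 / ε ^ 2 + 2 * C / ε + 4 * C)) * Y =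
        (n₃ : ℝ) ^ 2 * Y + 1 / ε ^ 2 * Y + C * (1 / ε * 2) * Y + C * 4 * Y := by ring
    rw [e4]
    linarith

end Run7.h946.PW
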