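import Pool.Agent.Run7.h946.PW.Cell
import Pool.Agent.Run7.h946.PW.Det

/-!
# The mean values of the prime counts over almost all blocks
-/

set_option autoImplicit false
set_option maxHeartbeats 4000000

namespace Run7.h946.PW

open Finset Filter Topology MeasureTheory

theorem cnt_filter (s t : ℕ) : SQ.cnt Nat.Prime s t = ((Ioc s t).filter Nat.Prime).card := by
  classical
  unfold SQ.cnt
  congr

theorem lev2 {a : ℕ} (ha : 2 ≤ a) (T C K N₁ : ℕ) : ∃ n₀ : ℕ, ∀ n : ℕ, n₀ ≤ n →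
    ∀ N B H : ℕ, N = (T + 1) * a ^ n → B = a ^ (n - n / 2) → H = B / n → ∀ L : ℝ, L = Real.log N →
    N₁ ≤ N ∧ 1 ≤ H ∧ H * n ≤ B ∧ B ≤ 2 * n * H ∧ 2 ≤ L ∧ (n : ℝ) ≤ 2 * L ∧ 4 ≤ n ∧
    (N : ℝ) ^ (1 / 3 : ℝ) * L ^ C ≤ H ∧ (H : ℝ) * L ^ C ≤ N ∧ (n + 1) ^ K ≤ H ∧ (B : ℝ) * L ^ 2 ≤ N ∧
    2 * B ≤ a ^ n ∧ L = Real.log (T + 1) + n * Real.log a := by
  obtain ⟨n₀, h0⟩ := lev_large ha (T + 1) (by omega) (C + 2) (K + 1) N₁
  refine ⟨n₀ + 4, fun n hn N B H hN hB hH L hL => ?_⟩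
  obtain ⟨Y, hY⟩ : ∃ Y, Y = B / 2 := ⟨_, rfl⟩
  obtain ⟨g1, g2, g3, g4, g5, g6, g7, g8, g9, g10, g11⟩ := h0 n (by omega) N B Y hN hB hY L hL
  have hn4 : 4 ≤ n := by omega
  have hnR : (4 : ℝ) ≤ n := by exact_mod_cast hn4
  have hL2 : 2 ≤ L := by linarith
  have hY2B : 2 * Y ≤ B := by omega
  have hY0 : (0 : ℝ) ≤ Y := Nat.cast_nonneg Y
  have hn0 : 0 < n := by omega
  -- `(n + 1) ^ K * n ≤ Y`
  have c1 : ((n : ℝ) + 1) ^ K * n ≤ Y := by
    have d1 : (n : ℝ) + 1 ≤ 3 * L := by linarith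
    have d2 : ((n : ℝ) + 1) ^ K ≤ (3 * L) ^ K := pow_le_pow_left₀ (by positivity) d1 K
    have d3 : ((n : ℝ) + 1) ^ K * n ≤ (3 * L) ^ K * (3 * L) :=
      mul_le_mul d2 (by linarith) (by positivity) (by positivity)
    have d4 : (3 * L) ^ K * (3 * L) = (3 * L) ^ (K + 1) := by ring
    have d5 : 0 ≤ (3 * L) ^ (K + 1) := by positivity
    nlinarith
  have c1n : (n + 1) ^ K * n ≤ Y := by exact_mod_cast c1
  have hnY : n ≤ Y := le_trans (Nat.le_mul_of_pos_left _ (Nat.pow_pos (by omega))) c1n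
  have hYH : Y ≤ H * n := by
    have e1 := Nat.div_add_mod B n
    have e2 := Nat.mod_lt B hn0
    rw [← hH] at e1
    have e3 : n * H = H * n := mul_comm _ _
    omega
  have hYHr : (Y : ℝ) ≤ H * n := by exact_mod_cast hYH
  have hH1 : 1 ≤ H := by
    rcases Nat.eq_zero_or_pos H with h | h
    · rw [h, zero_mul] at hYH
      omega
    · exact h
  have hHn : H * n ≤ B := by rw [hH]; exact Nat.div_mul_le_self B n
  have hH0 : (0 : ℝ) ≤ H := Nat.cast_nonneg H
  have hHr : (H : ℝ) * n ≤ B := by exact_mod_cast hHn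
  have hHY : (H : ℝ) ≤ Y := by nlinarith
  have hL0 : 0 ≤ L := by linarith
  refine ⟨g1, hH1, hHn, ?_, hL2, g5, hn4, ?_, ?_, ?_, ?_, ?_, ?_⟩
  · have e1 := Nat.div_add_mod B n
    have e2 := Nat.mod_lt B hn0
    rw [← hH] at e1
    have e3 : n ≤ n * H := Nat.le_mul_of_pos_right _ hH1
    have e4 : 2 * n * H = n * H + n * H := by ring
    omega
  · have d1 : (N : ℝ) ^ (1 / 3 : ℝ) * L ^ (C + 2) = (N : ℝ) ^ (1 / 3 : ℝ) * L ^ C * L ^ 2 := by ring
    rw [d1] at g8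
    have d2 : 0 ≤ (N : ℝ) ^ (1 / 3 : ℝ) * L ^ C := by positivity
    have d3 : (N : ℝ) ^ (1 / 3 : ℝ) * L ^ C * n ≤ H * n := by
      have d4 : (N : ℝ) ^ (1 / 3 : ℝ) * L ^ C * n ≤ (N : ℝ) ^ (1 / 3 : ℝ) * L ^ C * L ^ 2 :=
        mul_le_mul_of_nonneg_left (by nlinarith) d2
      linarith
    exact le_of_mul_le_mul_right d3 (by linarith)
  · refine le_trans ?_ g9
    exact mul_le_mul hHY (pow_le_pow_right₀ (by linarith) (by omega)) (by positivity) hY0
  · have d1 : (n + 1) ^ K * n ≤ H * n := c1n.trans hYH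
    exact le_of_mul_le_mul_right d1 hn0
  · refine le_trans ?_ g9
    have d1 : (B : ℝ) * L ^ 2 ≤ 4 * Y * L ^ 2 := mul_le_mul_of_nonneg_right g3 (by positivity)
    have d2 : 4 * (Y : ℝ) * L ^ 2 ≤ Y * L ^ 4 := by
      have d3 : 4 * L ^ 2 ≤ L ^ 4 := by
        have d6 : 4 ≤ L ^ 2 := by nlinarith
        have d7 : L ^ 4 = L ^ 2 * L ^ 2 := by ring
        rw [d7]
        exact mul_le_mul_of_nonneg_right d6 (sq_nonneg L)
      have d8 := mul_le_mul_of_nonneg_left d3 hY0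
      linarith
    have d4 : (Y : ℝ) * L ^ 4 ≤ Y * L ^ (C + 2 + 2) :=
      mul_le_mul_of_nonneg_left (pow_le_pow_right₀ (by linarith) (by omega)) hY0
    linarith
  · have hbs := block_sizes a n
    rw [← hB] at hbs
    have hbs' : a ^ n ≤ B ^ 2 ∧ B ^ 2 ≤ a ^ n * a := by
      rcases hbs with h | h
      · exact h
      · omega
    have d1 : (2 * a) ^ 2 ≤ B ^ 2 := by
      refine le_trans ?_ hbs'.1
      calc (2 * a) ^ 2 = 2 ^ 2 * a ^ 2 := by ring
        _ ≤ a ^ 2 * a ^ 2 := Nat.mul_le_mul_right _ (Nat.pow_le_pow_left ha 2)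
        _ = a ^ 4 := by ring
        _ ≤ a ^ n := Nat.pow_le_pow_right (by omega) hn4
    have d2 : 2 * a ≤ B := (Nat.pow_le_pow_iff_left (by norm_num)).1 d1
    have d3 : (2 * B) * a ≤ a ^ n * a := by
      calc (2 * B) * a = (2 * a) * B := by ring
        _ ≤ B * B := Nat.mul_le_mul_right _ d2
        _ = B ^ 2 := by ring
        _ ≤ _ := hbs'.2
    exact le_of_mul_le_mul_right d3 (by omega)
  · rw [hL, hN]
    push_cast
    have : (0 : ℝ) < a := by exact_mod_cast (by omega : 0 < a)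
    rw [Real.log_mul (by positivity) (by positivity), Real.log_pow]

/-- the mean over a block from the prime counts of the intervals inside -/
theorem avg_bounds {a : ℕ} (ha : 2 ≤ a) (h : ℕ → ℕ) (n x B H : ℕ) (L e : ℝ) (hB : B = a ^ (n - n / 2)) (hH1 : 1 ≤ H)
    (hHn : H * n ≤ B) (hn : 4 ≤ n) (hL : 2 ≤ L) (he0 : 0 ≤ e) (he1 : e ≤ 1) (hh1 : 1 ≤ h n) (hhH : h n ≤ H)
    (hx : 4 * B < x) {ρ : ℕ} (hρ : ρ < H)
    (hwin : ∀ m, x / B * B < m + H → m ≤ x / B * B + B + h n → m % H = ρ →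
      (1 - e) * (H / L) ≤ SQ.cnt Nat.Prime m (m + H) ∧ (SQ.cnt Nat.Prime m (m + H) : ℝ) ≤ (1 + e) * (H / L)) :
    avg a (gm h) n x ≤ n / L * (1 + 3 / n) * (1 + e) ∧ n / L * (1 - 3 / n) * (1 - e) ≤ avg a (gm h) n x := by
  classical
  have hB0 : 0 < B := by rw [hB]; exact Nat.pow_pos (by omega)
  have hxB : x < x / B * B + B := Nat.lt_div_mul_add hB0
  have hnR : (4 : ℝ) ≤ n := by exact_mod_cast hn
  have hBr : (0 : ℝ) < B := by exact_mod_cast hB0
  have hL0 : 0 < L := by linarith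
  have hh0 : (0 : ℝ) < h n := by exact_mod_cast hh1
  have hHr : (H : ℝ) * n ≤ B := by exact_mod_cast hHn
  have hH0 : (0 : ℝ) < H := by exact_mod_cast hH1
  have hHB : H ≤ B := le_trans (Nat.le_mul_of_pos_right _ (by omega)) hHn
  have hhHr : (h n : ℝ) ≤ H := by exact_mod_cast hhH
  obtain ⟨w, hw⟩ : ∃ w, w = x / B * B := ⟨_, rfl⟩
  rw [← hw] at hwin hxB
  have hHw : H ≤ w := by omega
  have htile := fun (s t : ℕ) => SQ.tile Nat.Prime hH1 hHw hρ (lo := (1 - e) * (H / L)) (hi := (1 + e) * (H / L))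
    (by have : 0 ≤ 1 - e := by linarith
        positivity) (by positivity) (b := w + B + h n) hwin (s := s) (t := t)
  -- the sum over the block
  obtain ⟨S, hS⟩ : ∃ S, S = ∑ x ∈ Ico w (w + B), cnt (h n) x := ⟨_, rfl⟩
  have havg : avg a (gm h) n x = (S : ℝ) * n / h n / B := by
    unfold avg
    rw [← hB, ← hw, hS, sum_Ico_eq_sum_range]
    have e1 : w + B - w = B := by omega
    rw [e1]
    congr 1
    push_cast
    rw [sum_mul, sum_div]
    refine sum_congr rfl fun l _ => ?_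
    rfl
  have hup : S ≤ h n * SQ.cnt Nat.Prime w (w + B + h n) := by
    have h1 := dc_le Nat.Prime w B (h n)
    rw [hS]
    refine h1.trans (le_of_eq ?_)
    rw [cnt_filter]
  have hlo : h n * SQ.cnt Nat.Prime (w + h n) (w + B) ≤ S := by
    have h1 := dc_ge Nat.Prime w B (h n) hh1
    rw [hS]
    refine le_trans ?_ h1
    apply Nat.mul_le_mul_left
    rw [cnt_filter]
    apply card_le_card
    intro p hp
    simp only [mem_filter, mem_Ioc, mem_Icc] at hp ⊢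
    exact ⟨⟨by omega, hp.1.2⟩, hp.2⟩
  have hupr : (S : ℝ) ≤ h n * SQ.cnt Nat.Prime w (w + B + h n) := by exact_mod_cast hup
  have hlor : (h n : ℝ) * SQ.cnt Nat.Prime (w + h n) (w + B) ≤ S := by exact_mod_cast hlo
  have h3H : 3 * (H : ℝ) ≤ B * (3 / n) := by
    rw [mul_div_assoc', le_div_iff₀ (by linarith)]
    linarith
  constructor
  · obtain ⟨h1, -⟩ := htile w (w + B + h n) le_rfl (by omega) le_rfl
    push_cast at h1
    have h2 : (SQ.cnt Nat.Prime w (w + B + h n) : ℝ) ≤ B * (1 + 3 / n) * (1 + e) / L := by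
      have h3 : (SQ.cnt Nat.Prime w (w + B + h n) : ℝ) * H ≤ (B * (1 + 3 / n) * (1 + e) / L) * H := by
        refine h1.trans ?_
        calc ((w : ℝ) + B + h n - w + 2 * H) * ((1 + e) * (H / L)) ≤ (B * (1 + 3 / n)) * ((1 + e) * (H / L)) := by
              apply mul_le_mul_of_nonneg_right _ (by positivity)
              linarith
          _ = (B * (1 + 3 / n) * (1 + e) / L) * H := by ring
      exact le_of_mul_le_mul_right h3 hH0
    rw [havg, div_le_iff₀ hBr, div_le_iff₀ hh0]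
    calc (S : ℝ) * n ≤ (h n * (B * (1 + 3 / n) * (1 + e) / L)) * n :=
          mul_le_mul_of_nonneg_right (hupr.trans (mul_le_mul_of_nonneg_left h2 hh0.le)) (by linarith)
      _ = n / L * (1 + 3 / n) * (1 + e) * B * h n := by ring
  · have hhB : h n ≤ B := hhH.trans hHB
    obtain ⟨-, h1⟩ := htile (w + h n) (w + B) (by omega) (by omega) (by omega)
    push_cast at h1
    have h2 : B * (1 - 3 / n) * (1 - e) / L ≤ (SQ.cnt Nat.Prime (w + h n) (w + B) : ℝ) := by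
      have h3 : (B * (1 - 3 / n) * (1 - e) / L) * H ≤ (SQ.cnt Nat.Prime (w + h n) (w + B) : ℝ) * H := by
        refine le_trans ?_ h1
        calc (B * (1 - 3 / n) * (1 - e) / L) * H = (B * (1 - 3 / n)) * ((1 - e) * (H / L)) := by ring
          _ ≤ ((w : ℝ) + B - (w + h n) - 2 * H) * ((1 - e) * (H / L)) := by
              apply mul_le_mul_of_nonneg_right
              · linarith
              · have : 0 ≤ 1 - e := by linarith
                positivity
      exact le_of_mul_le_mul_right h3 hH0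
    rw [havg, le_div_iff₀ hBr, le_div_iff₀ hh0]
    calc n / L * (1 - 3 / n) * (1 - e) * B * h n = (h n * (B * (1 - 3 / n) * (1 - e) / L)) * n := by ring
      _ ≤ (S : ℝ) * n :=
          mul_le_mul_of_nonneg_right ((mul_le_mul_of_nonneg_left h2 hh0.le).trans hlor) (by linarith)

/-- few blocks have many exceptional points -/
theorem few_blocks (E : Finset ℕ) (B H X : ℕ) :
    ((range X).filter (fun x => H ≤ (E.filter (fun m => x - 2 * B ≤ m ∧ m < x + 2 * B)).card)).card * H ≤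
      E.card * (4 * B + 1) := by
  classical
  obtain ⟨S, hS⟩ : ∃ S, S = (range X).filter (fun x => H ≤ (E.filter (fun m => x - 2 * B ≤ m ∧ m < x + 2 * B)).card) := ⟨_, rfl⟩
  rw [← hS]
  have h1 : S.card * H ≤ ∑ x ∈ S, (E.filter (fun m => x - 2 * B ≤ m ∧ m < x + 2 * B)).card := by
    rw [← smul_eq_mul]
    refine card_nsmul_le_sum _ _ _ fun x hx => ?_
    rw [hS] at hx
    exact (mem_filter.1 hx).2
  have h2 : ∑ x ∈ S, (E.filter (fun m => x - 2 * B ≤ m ∧ m < x + 2 * B)).card =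
      ∑ m ∈ E, (S.filter (fun x => x - 2 * B ≤ m ∧ m < x + 2 * B)).card := by
    simp only [card_filter]
    rw [sum_comm]
  rw [h2] at h1
  refine h1.trans ?_
  refine (sum_le_card_nsmul E _ (4 * B + 1) fun m _ => ?_).trans (le_of_eq (smul_eq_mul _ _))
  refine (card_le_card (t := Icc (m + 1 - 2 * B) (m + 2 * B)) ?_).trans ?_
  · intro x hx
    have := (mem_filter.1 hx).2
    rw [mem_Icc]
    omega
  · rw [Nat.card_Icc]
    omega

theorem avg_ae {a : ℕ} (ha : 2 ≤ a) (h : ℕ → ℕ) {ε : ℝ} (hε : 0 < ε) (K : ℕ)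
    (hh : ∀ᶠ n : ℕ in atTop, ε * n ≤ h n ∧ h n ≤ (n + 1) ^ K) (T : ℕ) {δ : ℝ} (hδ : 0 < δ) :
    ∀ᵐ β : ℝ, 0 < β → β < T → ∀ᶠ n : ℕ in atTop, |avg a (gm h) n ⌊β * (a : ℝ) ^ n⌋₊ - 1 / Real.log a| < δ := by
  classical
  have haR : (2 : ℝ) ≤ a := by exact_mod_cast ha
  have hla : 0 < Real.log a := Real.log_pos (by linarith)
  obtain ⟨e, he⟩ : ∃ e : ℝ, e = min (1 / 2) (δ * Real.log a / 2) := ⟨_, rfl⟩
  have he0 : 0 < e := by rw [he]; exact lt_min (by norm_num) (by positivity)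
  have he1 : e ≤ 1 / 2 := by rw [he]; exact min_le_left _ _
  have he2 : e ≤ δ * Real.log a / 2 := by rw [he]; exact min_le_right _ _
  obtain ⟨D, C1, N1, hb⟩ := Pool.Agent.Run7.h609.MK.bohr Pool.Agent.Run7.h794.MK.all_all 0 8 e he0
  obtain ⟨n₀, hlarge⟩ := lev2 ha T C1 K N1
  obtain ⟨B, hBf⟩ : ∃ B : ℕ → ℕ, B = fun n => a ^ (n - n / 2) := ⟨_, rfl⟩
  obtain ⟨H, hHf⟩ : ∃ H : ℕ → ℕ, H = fun n => B n / n := ⟨_, rfl⟩
  have hBn : ∀ n, B n = a ^ (n - n / 2) := fun n => by rw [hBf]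
  have hHn' : ∀ n, H n = B n / n := fun n => by rw [hHf]
  -- the exceptional sets
  have hex : ∀ n : ℕ, ∃ E : Finset ℕ, n₀ ≤ n →
      (E.card : ℝ) ≤ (((T + 1) * a ^ n : ℕ) : ℝ) / Real.log (((T + 1) * a ^ n : ℕ) : ℝ) ^ 8 ∧
      ∀ m : ℕ, 1 ≤ m → m ≤ (T + 1) * a ^ n → m ∉ E →
        (1 - e) * ((H n : ℝ) / Real.log (((T + 1) * a ^ n : ℕ) : ℝ)) ≤ SQ.cnt Nat.Prime m (m + H n) ∧
        (SQ.cnt Nat.Prime m (m + H n) : ℝ) ≤ (1 + e) * ((H n : ℝ) / Real.log (((T + 1) * a ^ n : ℕ) : ℝ)) := by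
    intro n
    by_cases hn : n₀ ≤ n
    · obtain ⟨g1, g2, g3, g4, g5, g6, g7, g8, g9, g10, g11, g12, g13⟩ := hlarge n hn ((T + 1) * a ^ n) (B n) (H n) rfl
        (hBn n) (hHn' n) _ rfl
      obtain ⟨E, hE, hE2⟩ := hb ((T + 1) * a ^ n) g1 (H n) g8 g9 (fun _ => 0)
        (fun h' h0 => absurd (Subsingleton.elim h' 0) h0)
      refine ⟨E, fun _ => ⟨hE, fun m h1 h2 h3 => ?_⟩⟩
      have h4 := abs_le.1 (hE2 m h1 h2 h3 (fun _ => 0) (fun _ => 0) (fun j => j.elim0) (fun j => j.elim0))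
      simp only [univ_eq_empty, prod_empty, one_mul, IsEmpty.forall_iff, and_true] at h4
      have e1 : ((Ioc m (m + H n)).filter (fun p : ℕ => p.Prime)).card = SQ.cnt Nat.Prime m (m + H n) :=
        (cnt_filter m (m + H n)).symm
      rw [e1] at h4
      constructor <;> linarith [h4.1, h4.2]
    · exact ⟨∅, fun h => absurd h hn⟩
  choose E hE using hex
  obtain ⟨P, hP⟩ : ∃ P : ℕ → ℕ → Prop, P = fun n x => x ≤ 4 * B n ∨
    H n ≤ ((E n).filter (fun m => x - 2 * B n ≤ m ∧ m < x + 2 * B n)).card := ⟨_, rfl⟩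
  have hvol : ∀ n, volume {β : ℝ | 0 ≤ β ∧ β < T ∧ P (n + n₀) ⌊β * (a : ℝ) ^ (n + n₀)⌋₊} ≤
      ENNReal.ofReal (24 * (T + 1) * (1 / ((n + n₀ : ℕ) : ℝ) ^ 2)) := by
    intro n
    refine (vol_le ha T (n + n₀) (P (n + n₀))).trans ?_
    apply ENNReal.ofReal_le_ofReal
    obtain ⟨m, hm⟩ : ∃ m, m = n + n₀ := ⟨_, rfl⟩
    rw [← hm]
    obtain ⟨g1, g2, g3, g4, g5, g6, g7, g8, g9, g10, g11, g12, g13⟩ := hlarge m (by omega) ((T + 1) * a ^ m) (B m) (H m)
      rfl (hBn m) (hHn' m) _ rfl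
    obtain ⟨hE1, -⟩ := hE m (by omega)
    obtain ⟨N, hN⟩ : ∃ N, N = (T + 1) * a ^ m := ⟨_, rfl⟩
    rw [← hN] at g1 g5 g6 g8 g9 g11 g13 hE1
    obtain ⟨L, hL⟩ : ∃ L, L = Real.log (N : ℝ) := ⟨_, rfl⟩
    rw [← hL] at g5 g6 g8 g9 g11 g13 hE1
    have hL0 : 0 < L := by linarith
    have haM : (0 : ℝ) < (a : ℝ) ^ m := by positivity
    have hN0 : (0 : ℝ) ≤ N := Nat.cast_nonneg N
    have hHr : (1 : ℝ) ≤ H m := by exact_mod_cast g2
    have hBm1 : 1 ≤ B m := by rw [hBn]; exact Nat.pow_pos (by omega)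
    have hBm1r : (1 : ℝ) ≤ B m := by exact_mod_cast hBm1
    -- the second part of the bad set
    have q1 := few_blocks (E m) (B m) (H m) (T * a ^ m)
    obtain ⟨F, hF⟩ : ∃ F, F = (range (T * a ^ m)).filter (fun x => H m ≤ ((E m).filter (fun k => x - 2 * B m ≤ k ∧
      k < x + 2 * B m)).card) := ⟨_, rfl⟩
    rw [← hF] at q1
    have q2 : (F.card : ℝ) * H m ≤ (E m).card * (5 * B m) := by
      have : ((F.card * H m : ℕ) : ℝ) ≤ (((E m).card * (4 * B m + 1) : ℕ) : ℝ) := by exact_mod_cast q1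
      push_cast at this
      refine this.trans (mul_le_mul_of_nonneg_left (by linarith) (Nat.cast_nonneg _))
    have q3 : (B m : ℝ) ≤ 2 * m * H m := by exact_mod_cast g4
    have q4 : (F.card : ℝ) ≤ (E m).card * (10 * m) := by
      have q5 : (F.card : ℝ) * H m ≤ (E m).card * (10 * m) * H m := by
        refine q2.trans ?_
        calc ((E m).card : ℝ) * (5 * B m) ≤ (E m).card * (5 * (2 * m * H m)) :=
              mul_le_mul_of_nonneg_left (by linarith) (Nat.cast_nonneg _)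
          _ = (E m).card * (10 * m) * H m := by ring
      exact le_of_mul_le_mul_right q5 (by linarith)
    have q6 : (F.card : ℝ) ≤ N / L ^ 2 := by
      calc (F.card : ℝ) ≤ (E m).card * (10 * m) := q4
        _ ≤ (N / L ^ 8) * (20 * L) := mul_le_mul hE1 (by linarith) (by positivity) (by positivity)
        _ ≤ (N / L ^ 8) * L ^ 6 := by
            apply mul_le_mul_of_nonneg_left _ (by positivity)
            have : (32 : ℝ) ≤ L ^ 5 := by
              calc (32 : ℝ) = 2 ^ 5 := by norm_num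
                _ ≤ L ^ 5 := pow_le_pow_left₀ (by norm_num) g5 5
            calc 20 * L ≤ L ^ 5 * L := mul_le_mul_of_nonneg_right (by linarith) hL0.le
              _ = L ^ 6 := by ring
        _ = N / L ^ 2 := by field_simp
    have h1 : ((range (T * a ^ m)).filter (P m)).card ≤ F.card + 5 * B m := by
      have h2 : (range (T * a ^ m)).filter (P m) ⊆ F ∪ range (4 * B m + 1) := by
        intro x hx
        obtain ⟨hx1, hx2⟩ := mem_filter.1 hx
        rw [hP] at hx2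
        rw [mem_union, mem_range]
        rcases hx2 with h | h
        · exact Or.inr (by omega)
        · left
          rw [hF, mem_filter]
          exact ⟨hx1, h⟩
      have h3 := (card_le_card h2).trans (card_union_le _ _)
      rw [card_range] at h3
      omega
    have h1r : (((range (T * a ^ m)).filter (P m)).card : ℝ) ≤ F.card + 5 * B m := by exact_mod_cast h1
    have h7 : (B m : ℝ) ≤ N / L ^ 2 := by
      rw [le_div_iff₀ (by positivity)]
      exact g11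
    have h8 : (((range (T * a ^ m)).filter (P m)).card : ℝ) ≤ 6 * (N / L ^ 2) := by linarith
    rw [div_le_iff₀ haM]
    refine h8.trans ?_
    have hm0 : (0 : ℝ) < m := by exact_mod_cast (by omega : 0 < m)
    have h9 : 1 / L ^ 2 ≤ 4 * (1 / (m : ℝ) ^ 2) := by
      rw [mul_one_div, div_le_div_iff₀ (by positivity) (by positivity)]
      have := pow_le_pow_left₀ hm0.le g6 2
      nlinarith
    have hNe : (N : ℝ) = (T + 1) * (a : ℝ) ^ m := by rw [hN]; push_cast; ring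
    rw [hNe]
    calc 6 * (((T : ℝ) + 1) * (a : ℝ) ^ m / L ^ 2) = 6 * (T + 1) * (a : ℝ) ^ m * (1 / L ^ 2) := by ring
      _ ≤ 6 * (T + 1) * (a : ℝ) ^ m * (4 * (1 / (m : ℝ) ^ 2)) := mul_le_mul_of_nonneg_left h9 (by positivity)
      _ = 24 * (T + 1) * (1 / (m : ℝ) ^ 2) * (a : ℝ) ^ m := by ring
  have hsum : ∑' n, volume {β : ℝ | 0 ≤ β ∧ β < T ∧ P (n + n₀) ⌊β * (a : ℝ) ^ (n + n₀)⌋₊} ≠ ⊤ := by
    have h3 : Summable (fun n : ℕ => 24 * ((T : ℝ) + 1) * (1 / ((n + n₀ : ℕ) : ℝ) ^ 2)) := by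
      apply Summable.mul_left
      have h4 : Summable (fun s : ℕ => 1 / (s : ℝ) ^ 2) := by
        rw [Real.summable_one_div_nat_pow]
        norm_num
      exact (summable_nat_add_iff n₀).2 h4
    exact ne_top_of_le_ne_top h3.tsum_ofReal_ne_top (ENNReal.tsum_le_tsum hvol)
  -- the limits of the bounds
  have hinv : Tendsto (fun n : ℕ => (3 : ℝ) / n) atTop (𝓝 0) := tendsto_const_div_atTop_nhds_zero_nat 3
  have hratio : Tendsto (fun n : ℕ => (n : ℝ) / (Real.log (T + 1) + n * Real.log a)) atTop (𝓝 (1 / Real.log a)) := by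
    have h1 : Tendsto (fun n : ℕ => Real.log (T + 1) / n + Real.log a) atTop (𝓝 (0 + Real.log a)) :=
      (tendsto_const_div_atTop_nhds_zero_nat _).add tendsto_const_nhds
    rw [zero_add] at h1
    have h2 := h1.inv₀ hla.ne'
    rw [one_div]
    refine h2.congr' ?_
    filter_upwards [eventually_ge_atTop 1] with n hn
    have hn0 : (n : ℝ) ≠ 0 := by
      have : n ≠ 0 := by omega
      exact_mod_cast this
    have e1 : Real.log (T + 1) / n + Real.log a = (Real.log (T + 1) + n * Real.log a) / n := by field_simp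
    rw [e1, inv_div]
  have hU : Tendsto (fun n : ℕ => (n : ℝ) / (Real.log (T + 1) + n * Real.log a) * (1 + 3 / n) * (1 + e)) atTop
      (𝓝 (1 / Real.log a * (1 + 0) * (1 + e))) :=
    (hratio.mul (tendsto_const_nhds.add hinv)).mul tendsto_const_nhds
  have hV : Tendsto (fun n : ℕ => (n : ℝ) / (Real.log (T + 1) + n * Real.log a) * (1 - 3 / n) * (1 - e)) atTop
      (𝓝 (1 / Real.log a * (1 - 0) * (1 - e))) :=
    (hratio.mul (tendsto_const_nhds.sub hinv)).mul tendsto_const_nhds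
  have heδ : 1 / Real.log a * e ≤ δ / 2 := by
    rw [one_div_mul_eq_div, div_le_iff₀ hla]
    linarith
  have hU' := hU.eventually_lt_const (u := 1 / Real.log a + δ) (by
    have : 1 / Real.log a * (1 + 0) * (1 + e) = 1 / Real.log a + 1 / Real.log a * e := by ring
    rw [this]
    linarith)
  have hV' := hV.eventually_const_lt (u := 1 / Real.log a - δ) (by
    have : 1 / Real.log a * (1 - 0) * (1 - e) = 1 / Real.log a - 1 / Real.log a * e := by ring
    rw [this]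
    linarith)
  filter_upwards [ae_eventually_notMem hsum] with β hβ h0 hβT
  obtain ⟨m₀, hm₀⟩ := eventually_atTop.1 hβ
  filter_upwards [eventually_ge_atTop (m₀ + n₀), hU', hV', hh, (tendsto_natCast_atTop_atTop (R := ℝ)).eventually_ge_atTop (1 / ε)]
    with n hn hUn hVn hhn hnε
  have hn0 : n₀ ≤ n := by omega
  have h1 : ¬ (0 ≤ β ∧ β < T ∧ P (n - n₀ + n₀) ⌊β * (a : ℝ) ^ (n - n₀ + n₀)⌋₊) := hm₀ (n - n₀) (by omega)
  rw [Nat.sub_add_cancel hn0] at h1
  push Not at h1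
  have h2 := h1 h0.le hβT
  obtain ⟨x, hx⟩ : ∃ x, x = ⌊β * (a : ℝ) ^ n⌋₊ := ⟨_, rfl⟩
  rw [← hx] at h2 ⊢
  rw [hP] at h2
  push Not at h2
  obtain ⟨h3, h4⟩ := h2
  obtain ⟨g1, g2, g3, g4, g5, g6, g7, g8, g9, g10, g11, g12, g13⟩ := hlarge n hn0 ((T + 1) * a ^ n) (B n) (H n) rfl
    (hBn n) (hHn' n) _ rfl
  obtain ⟨-, hwin⟩ := hE n hn0
  have hxN : x ≤ T * a ^ n := by
    rw [hx]
    apply Nat.floor_le_of_le
    push_cast
    exact mul_le_mul_of_nonneg_right hβT.le (by positivity)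
  obtain ⟨ρ, hρ, hρ2⟩ := SQ.exists_residue _ h4
  have hh1 : 1 ≤ h n := by
    have : (1 : ℝ) ≤ h n := by
      have h5 : 1 ≤ ε * n := by
        rw [div_le_iff₀ hε] at hnε
        linarith
      linarith [hhn.1]
    exact_mod_cast this
  have hhH : h n ≤ H n := hhn.2.trans g10
  have hB0 : 0 < B n := by rw [hBn]; exact Nat.pow_pos (by omega)
  have hxB : x / B n * B n ≤ x := Nat.div_mul_le_self x (B n)
  have hxB2 : x < x / B n * B n + B n := Nat.lt_div_mul_add hB0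
  have hHB : H n * 4 ≤ B n := le_trans (Nat.mul_le_mul_left _ g7) g3
  have hN1 : (T + 1) * a ^ n = T * a ^ n + a ^ n := by ring
  obtain ⟨b1, b2⟩ := avg_bounds ha h n x (B n) (H n) (Real.log (((T + 1) * a ^ n : ℕ) : ℝ)) e (hBn n) g2 g3 g7 g5 he0.le
    (by linarith) hh1 hhH h3 hρ (by
      intro m m1 m2 m3
      apply hwin m (by omega) (by omega)
      intro hmE
      apply hρ2 m _ m3
      rw [mem_filter]
      exact ⟨hmE, by omega, by omega⟩)
  rw [g13] at b1 b2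
  rw [abs_lt]
  constructor <;> linarith

end Run7.h946.PW
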