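import Pool.Agent.Run7.h946.PW.Orth

/-!
# Harmonic averages over levels: almost every real number
-/

set_option autoImplicit false

namespace Run7.h946.PW

open Finset Filter Topology MeasureTheory

theorem floor_lev {a : ℕ} (ha : 2 ≤ a) (β : ℝ) {n M : ℕ} (h : n ≤ M) :
    ⌊β * (a : ℝ) ^ M⌋₊ / a ^ (M - n) = ⌊β * (a : ℝ) ^ n⌋₊ := by
  rw [← Nat.floor_div_natCast]
  congr 1
  have h1 : (a : ℝ) ^ M = (a : ℝ) ^ n * (a : ℝ) ^ (M - n) := by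
    rw [← pow_add]
    congr 1
    omega
  have h2 : (a : ℝ) ^ (M - n) ≠ 0 := by
    have : (a : ℝ) ≠ 0 := by
      have : a ≠ 0 := by omega
      exact_mod_cast this
    exact pow_ne_zero _ this
  push_cast
  rw [h1, ← mul_assoc, mul_div_assoc, div_self h2, mul_one]

theorem vol_le {a : ℕ} (ha : 2 ≤ a) (T M : ℕ) (P : ℕ → Prop) [DecidablePred P] :
    volume {β : ℝ | 0 ≤ β ∧ β < T ∧ P ⌊β * (a : ℝ) ^ M⌋₊} ≤
      ENNReal.ofReal ((((range (T * a ^ M)).filter P).card : ℝ) / (a : ℝ) ^ M) := by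
  have haM : (0 : ℝ) < (a : ℝ) ^ M := by
    have : (0 : ℝ) < a := by
      have : 0 < a := by omega
      exact_mod_cast this
    positivity
  have h1 : {β : ℝ | 0 ≤ β ∧ β < T ∧ P ⌊β * (a : ℝ) ^ M⌋₊} ⊆
      ⋃ k ∈ (range (T * a ^ M)).filter P, Set.Ico ((k : ℝ) / (a : ℝ) ^ M) (((k : ℝ) + 1) / (a : ℝ) ^ M) := by
    rintro β ⟨h2, h3, h4⟩
    rw [Set.mem_iUnion₂]
    refine ⟨⌊β * (a : ℝ) ^ M⌋₊, ?_, ?_⟩
    · rw [mem_filter, mem_range]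
      refine ⟨?_, h4⟩
      rw [Nat.floor_lt (by positivity)]
      push_cast
      exact mul_lt_mul_of_pos_right h3 haM
    · rw [Set.mem_Ico, div_le_iff₀ haM, lt_div_iff₀ haM]
      exact ⟨Nat.floor_le (by positivity), Nat.lt_floor_add_one _⟩
  refine (measure_mono h1).trans ((measure_biUnion_finset_le _ _).trans ?_)
  have h5 : ∀ k ∈ (range (T * a ^ M)).filter P,
      volume (Set.Ico ((k : ℝ) / (a : ℝ) ^ M) (((k : ℝ) + 1) / (a : ℝ) ^ M)) = ENNReal.ofReal (1 / (a : ℝ) ^ M) := by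
    intro k _
    rw [Real.volume_Ico]
    congr 1
    ring
  rw [sum_congr rfl h5, sum_const, nsmul_eq_mul, ← ENNReal.ofReal_natCast, ← ENNReal.ofReal_mul (Nat.cast_nonneg _)]
  apply ENNReal.ofReal_le_ofReal
  rw [mul_one_div]

/-- the sum over a dyadic block of levels, as a function of `β` -/
noncomputable def sb (a : ℕ) (g : ℕ → ℕ → ℝ) (β : ℝ) (i : ℕ) : ℝ :=
  ∑ n ∈ Ico (2 ^ i) (2 ^ (i + 1)), dif a g n ⌊β * (a : ℝ) ^ n⌋₊ / n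

theorem blk_eq {a : ℕ} (ha : 2 ≤ a) (g : ℕ → ℕ → ℝ) (β : ℝ) (M I : ℕ) (hM : 2 ^ I ≤ M) :
    ∑ i ∈ range I, blk a g M i ⌊β * (a : ℝ) ^ M⌋₊ = ∑ i ∈ range I, sb a g β i := by
  refine sum_congr rfl fun i hi => ?_
  rw [mem_range] at hi
  unfold blk sb
  refine sum_congr rfl fun n hn => ?_
  rw [mem_Ico] at hn
  have h1 : 2 ^ (i + 1) ≤ 2 ^ I := Nat.pow_le_pow_right (by norm_num) (by omega)
  rw [floor_lev ha β (by omega)]

theorem squares {a : ℕ} (ha : 2 ≤ a) {g : ℕ → ℕ → ℝ} (hg : ∀ n x, 0 ≤ g n x ∧ g n x ≤ 1) (T : ℕ) {η : ℝ}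
    (hη : 0 < η) : ∀ᵐ β : ℝ, 0 ≤ β → β < T → ∀ᶠ s : ℕ in atTop,
      |∑ i ∈ range ((s + 1) ^ 2), sb a g β i| < η * ((s + 1 : ℕ) : ℝ) ^ 2 := by
  classical
  obtain ⟨Z, hZ⟩ : ∃ Z : ℕ → Set ℝ, Z = fun s => {β : ℝ | 0 ≤ β ∧ β < T ∧
    η * (((s + 1) ^ 2 : ℕ) : ℝ) ≤ |∑ i ∈ range ((s + 1) ^ 2), blk a g (2 ^ ((s + 1) ^ 2)) i
      ⌊β * (a : ℝ) ^ (2 ^ ((s + 1) ^ 2))⌋₊|} := ⟨_, rfl⟩
  have h1 : ∀ s, volume (Z s) ≤ ENNReal.ofReal (3 * T / η ^ 2 * (1 / ((s + 1 : ℕ) : ℝ) ^ 2)) := by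
    intro s
    rw [hZ]
    refine (vol_le ha T (2 ^ ((s + 1) ^ 2)) (fun k => η * (((s + 1) ^ 2 : ℕ) : ℝ) ≤
      |∑ i ∈ range ((s + 1) ^ 2), blk a g (2 ^ ((s + 1) ^ 2)) i k|)).trans ?_
    apply ENNReal.ofReal_le_ofReal
    have h2 := cheb ha hg T (2 ^ ((s + 1) ^ 2)) ((s + 1) ^ 2) le_rfl (by positivity) hη
    have haM : (0 : ℝ) < (a : ℝ) ^ (2 ^ ((s + 1) ^ 2)) := by
      have : (0 : ℝ) < a := by
        have : 0 < a := by omega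
        exact_mod_cast this
      positivity
    rw [div_le_iff₀ haM]
    refine h2.trans (le_of_eq ?_)
    push_cast
    have h3 : ((s : ℝ) + 1) ≠ 0 := by positivity
    field_simp
  have h2 : ∑' s, volume (Z s) ≠ ⊤ := by
    have h3 : Summable (fun s : ℕ => 3 * T / η ^ 2 * (1 / ((s + 1 : ℕ) : ℝ) ^ 2)) := by
      apply Summable.mul_left
      have h4 : Summable (fun s : ℕ => 1 / (s : ℝ) ^ 2) := by
        rw [Real.summable_one_div_nat_pow]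
        norm_num
      exact (summable_nat_add_iff 1).2 h4
    exact ne_top_of_le_ne_top h3.tsum_ofReal_ne_top (ENNReal.tsum_le_tsum h1)
  filter_upwards [ae_eventually_notMem h2] with β hβ h0 hT
  filter_upwards [hβ] with s hs
  rw [hZ] at hs
  have h5 : ¬ (0 ≤ β ∧ β < T ∧ η * (((s + 1) ^ 2 : ℕ) : ℝ) ≤ |∑ i ∈ range ((s + 1) ^ 2),
      blk a g (2 ^ ((s + 1) ^ 2)) i ⌊β * (a : ℝ) ^ (2 ^ ((s + 1) ^ 2))⌋₊|) := hs
  rw [blk_eq ha g β _ _ le_rfl] at h5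
  push Not at h5
  have h6 := h5 h0 hT
  push_cast at h6 ⊢
  exact h6

/-- from the squares to all indices -/
theorem fill (f : ℕ → ℝ) (hf : ∀ i, |f i| ≤ 1) {η : ℝ} (hη : 0 < η)
    (h : ∀ᶠ s : ℕ in atTop, |∑ i ∈ range ((s + 1) ^ 2), f i| < η * ((s + 1 : ℕ) : ℝ) ^ 2) :
    ∀ᶠ I : ℕ in atTop, |∑ i ∈ range I, f i| ≤ 2 * η * I := by
  obtain ⟨s₀, hs⟩ := eventually_atTop.1 h
  obtain ⟨s₁, hs₁⟩ := exists_nat_ge (2 / η)
  filter_upwards [eventually_ge_atTop ((s₀ + s₁ + 1) ^ 2)] with I hI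
  obtain ⟨t, ht⟩ : ∃ t, t = Nat.sqrt I := ⟨_, rfl⟩
  have ht1 : t * t ≤ I := by rw [ht]; exact Nat.sqrt_le I
  have ht2 : I ≤ t * t + t + t := by rw [ht]; exact Nat.sqrt_le_add I
  have ht3 : s₀ + s₁ + 1 ≤ t := by
    rw [ht, Nat.le_sqrt, ← sq]
    exact hI
  have h1 := hs (t - 1) (by omega)
  have e1 : t - 1 + 1 = t := by omega
  rw [e1] at h1
  have h2 : ∑ i ∈ range I, f i = ∑ i ∈ range (t ^ 2), f i + ∑ i ∈ Ico (t ^ 2) I, f i := by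
    rw [sum_range_add_sum_Ico]
    rw [sq]
    exact ht1
  have h3 : |∑ i ∈ Ico (t ^ 2) I, f i| ≤ 2 * t := by
    refine (abs_sum_le_sum_abs _ _).trans ((sum_le_sum fun i _ => hf i).trans ?_)
    rw [sum_const, Nat.card_Ico, nsmul_eq_mul, mul_one]
    have : I - t ^ 2 ≤ 2 * t := by rw [sq]; omega
    exact_mod_cast this
  have ht4 : (s₁ : ℝ) ≤ t := by exact_mod_cast (by omega : s₁ ≤ t)
  have ht5 : (t : ℝ) * t ≤ I := by exact_mod_cast ht1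
  have h4 : 2 * (t : ℝ) ≤ η * (t * t) := by
    have h5 : 2 / η ≤ t := hs₁.trans ht4
    rw [div_le_iff₀ hη] at h5
    have : (0 : ℝ) ≤ t := Nat.cast_nonneg t
    nlinarith
  have h5 := abs_add_le (∑ i ∈ range (t ^ 2), f i) (∑ i ∈ Ico (t ^ 2) I, f i)
  rw [← h2] at h5
  have h6 : η * ((t : ℝ) * t) ≤ η * I := mul_le_mul_of_nonneg_left ht5 hη.le
  have h7 : η * (t : ℝ) ^ 2 = η * (t * t) := by ring
  linarith

theorem blocks_eq (f : ℕ → ℝ) (I : ℕ) :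
    ∑ i ∈ range I, ∑ n ∈ Ico (2 ^ i) (2 ^ (i + 1)), f n = ∑ n ∈ Ico 1 (2 ^ I), f n := by
  induction I with
  | zero => simp
  | succ I ih =>
    rw [sum_range_succ, ih, sum_Ico_consecutive _ Nat.one_le_two_pow (Nat.pow_le_pow_right (by norm_num) (by omega))]

/-- **Harmonic averages.** If the mean values over the blocks around `β a ^ n` are at least `c` for all large `n`, then the
harmonic average of the numbers `g n ⌊β a ^ n⌋` is at least `c / 4`. -/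
theorem harmonic {a : ℕ} (ha : 2 ≤ a) {g : ℕ → ℕ → ℝ} (hg : ∀ n x, 0 ≤ g n x ∧ g n x ≤ 1) (T : ℕ) {c : ℝ}
    (hc : 0 < c) (h : ∀ᵐ β : ℝ, 0 < β → β < T → ∀ᶠ n : ℕ in atTop, c ≤ avg a g n ⌊β * (a : ℝ) ^ n⌋₊) :
    ∀ᵐ β : ℝ, 0 < β → β < T → ∀ᶠ N : ℕ in atTop,
      c / 4 * Real.log N ≤ ∑ n ∈ Icc 1 N, g n ⌊β * (a : ℝ) ^ n⌋₊ / n := by
  filter_upwards [h, squares ha hg T (show 0 < c / 16 by positivity)] with β h1 h2 h0 hT
  have h3 := fill (sb a g β) (fun i => sum_abs ha hg i (fun n => ⌊β * (a : ℝ) ^ n⌋₊)) (by positivity) (h2 h0.le hT)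
  obtain ⟨n₀, hn₀⟩ := eventually_atTop.1 (h1 h0 hT)
  obtain ⟨i₀, hi₀⟩ : ∃ i₀ : ℕ, n₀ ≤ 2 ^ i₀ := ⟨n₀, Nat.lt_two_pow_self.le⟩
  obtain ⟨I₁, hI₁⟩ := eventually_atTop.1 h3
  -- the sum up to `2 ^ I`
  have h4 : ∀ I : ℕ, I₁ ≤ I → 4 * i₀ ≤ I → c / 4 * I ≤ ∑ n ∈ Ico 1 (2 ^ I), g n ⌊β * (a : ℝ) ^ n⌋₊ / n := by
    intro I h5 h6
    have h7 := (abs_le.1 (hI₁ I h5)).1
    have h8 : ∑ n ∈ Ico 1 (2 ^ I), g n ⌊β * (a : ℝ) ^ n⌋₊ / n =
        ∑ i ∈ range I, sb a g β i + ∑ i ∈ range I, ∑ n ∈ Ico (2 ^ i) (2 ^ (i + 1)),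
          avg a g n ⌊β * (a : ℝ) ^ n⌋₊ / n := by
      rw [← blocks_eq, ← sum_add_distrib]
      refine sum_congr rfl fun i _ => ?_
      unfold sb dif
      rw [← sum_add_distrib]
      refine sum_congr rfl fun n _ => ?_
      ring
    have h9 : ∑ i ∈ Ico i₀ I, c / 2 ≤ ∑ i ∈ range I, ∑ n ∈ Ico (2 ^ i) (2 ^ (i + 1)),
          avg a g n ⌊β * (a : ℝ) ^ n⌋₊ / n := by
      refine le_trans (sum_le_sum (g := fun i => ∑ n ∈ Ico (2 ^ i) (2 ^ (i + 1)),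
          avg a g n ⌊β * (a : ℝ) ^ n⌋₊ / n) fun i hi => ?_) (sum_le_sum_of_subset_of_nonneg ?_ fun i _ _ => ?_)
      · rw [mem_Ico] at hi
        have g1 : ∀ n ∈ Ico (2 ^ i) (2 ^ (i + 1)), c * ((1 : ℝ) / n) ≤ avg a g n ⌊β * (a : ℝ) ^ n⌋₊ / n := by
          intro n hn
          rw [mem_Ico] at hn
          have g2 : n₀ ≤ n := hi₀.trans ((Nat.pow_le_pow_right (by norm_num) hi.1).trans hn.1)
          rw [mul_one_div]
          exact div_le_div_of_nonneg_right (hn₀ n g2) (Nat.cast_nonneg _)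
        refine le_trans ?_ (sum_le_sum g1)
        rw [← mul_sum]
        have := mul_le_mul_of_nonneg_left (harm_ge i) hc.le
        linarith
      · intro i hi
        rw [mem_Ico] at hi
        rw [mem_range]
        exact hi.2
      · exact sum_nonneg fun n _ => div_nonneg (avg_mem ha hg _ _).1 (Nat.cast_nonneg _)
    rw [sum_const, Nat.card_Ico, nsmul_eq_mul, Nat.cast_sub (by omega)] at h9
    rw [h8]
    have h10 : 4 * (i₀ : ℝ) ≤ I := by exact_mod_cast h6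
    nlinarith
  filter_upwards [eventually_ge_atTop (2 ^ (I₁ + 4 * i₀ + 3))] with N hN
  obtain ⟨I, hI⟩ : ∃ I, I = Nat.log 2 N := ⟨_, rfl⟩
  have hN0 : N ≠ 0 := by
    have : 0 < 2 ^ (I₁ + 4 * i₀ + 3) := by positivity
    omega
  have hI1 : 2 ^ I ≤ N := by rw [hI]; exact Nat.pow_log_le_self 2 hN0
  have hI2 : N < 2 ^ (I + 1) := by rw [hI]; exact Nat.lt_pow_succ_log_self (by norm_num) N
  have hI3 : I₁ + 4 * i₀ + 3 ≤ I := by
    have : 2 ^ (I₁ + 4 * i₀ + 3) < 2 ^ (I + 1) := lt_of_le_of_lt hN hI2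
    have := (Nat.pow_lt_pow_iff_right (by norm_num : 1 < 2)).1 this
    omega
  have h5 := h4 I (by omega) (by omega)
  have h6 : ∑ n ∈ Ico 1 (2 ^ I), g n ⌊β * (a : ℝ) ^ n⌋₊ / n ≤ ∑ n ∈ Icc 1 N, g n ⌊β * (a : ℝ) ^ n⌋₊ / n := by
    refine sum_le_sum_of_subset_of_nonneg ?_ fun n _ _ => div_nonneg (hg _ _).1 (Nat.cast_nonneg _)
    intro n hn
    rw [mem_Ico] at hn
    rw [mem_Icc]
    omega
  refine le_trans ?_ (h5.trans h6)
  apply mul_le_mul_of_nonneg_left _ (by positivity)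
  have h7 : Real.log N ≤ Real.log ((2 : ℝ) ^ (I + 1)) := by
    apply Real.log_le_log (by exact_mod_cast Nat.pos_of_ne_zero hN0)
    exact_mod_cast hI2.le
  rw [Real.log_pow] at h7
  have h8 := Real.log_two_lt_d9
  have h9 : (3 : ℝ) ≤ I := by exact_mod_cast (by omega : 3 ≤ I)
  push_cast at h7
  nlinarith

end Run7.h946.PW
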