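import Pool.Agent.Run7.h946.SQ.Win
import Pool.Agent.Run7.h946.PW.Sieve
import Pool.Agent.Run7.h946.PW.Meas

/-!
# Primes in short intervals inside blocks: almost every block
-/

set_option autoImplicit false
set_option maxHeartbeats 4000000

namespace Run7.h946.PW

open Finset Filter Topology MeasureTheory
open Run7.h946.SQ (ev_pow)

/-- the indicator function of the integers `x` with at least `δ h n / n` primes in `(x, x + h n]` -/
noncomputable def good (h : ℕ → ℕ) (δ : ℝ) (n x : ℕ) : ℝ := if δ * (h n / n) ≤ (cnt (h n) x : ℝ) then 1 else 0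

theorem good_mem (h : ℕ → ℕ) (δ : ℝ) (n x : ℕ) : 0 ≤ good h δ n x ∧ good h δ n x ≤ 1 := by
  unfold good
  split_ifs <;> norm_num

/-- the inequalities for the block lengths -/
theorem block_sizes (a n : ℕ) : a ^ n ≤ (a ^ (n - n / 2)) ^ 2 ∧ (a ^ (n - n / 2)) ^ 2 ≤ a ^ n * a ∨ a = 0 := by
  rcases Nat.eq_zero_or_pos a with h | h
  · exact Or.inr h
  · left
    rw [← pow_mul, ← pow_succ]
    exact ⟨Nat.pow_le_pow_right h (by omega), Nat.pow_le_pow_right h (by omega)⟩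

/-- the conditions on `n` -/
theorem lev_large {a : ℕ} (ha : 2 ≤ a) (T : ℕ) (hT : 1 ≤ T) (C K N₁ : ℕ) : ∃ n₀ : ℕ, ∀ n : ℕ, n₀ ≤ n →
    ∀ N B Y : ℕ, N = T * a ^ n → B = a ^ (n - n / 2) → Y = B / 2 → ∀ L : ℝ, L = Real.log N →
    N₁ ≤ N ∧ 2 ≤ Y ∧ (B : ℝ) ≤ 4 * Y ∧ 1 ≤ L ∧ (n : ℝ) ≤ 2 * L ∧ L ≤ n * (1 + Real.log a) ∧ 1 ≤ n ∧
    (N : ℝ) ^ (1 / 3 : ℝ) * L ^ C ≤ Y ∧ (Y : ℝ) * L ^ (C + 2) ≤ N ∧ (3 * L) ^ K * (4 * L) ≤ Y ∧
    L / 3 ≤ Real.log Y := by
  obtain ⟨N2, h2⟩ := ev_pow C (4 * Real.sqrt T) (1 / 6) (by norm_num)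
  obtain ⟨N3, h3⟩ := ev_pow (C + 2) (Real.sqrt a) (1 / 2) (by norm_num)
  obtain ⟨N4, h4⟩ := ev_pow (K + 1) (3 ^ K * 4) (1 / 3) (by norm_num)
  obtain ⟨n5, h5⟩ := exists_nat_ge (Real.log T)
  refine ⟨N₁ + N2 + N3 + N4 + n5 + 16, fun n hn N B Y hN hB hY L hL => ?_⟩
  have haR : (2 : ℝ) ≤ a := by exact_mod_cast ha
  have hTR : (1 : ℝ) ≤ T := by exact_mod_cast hT
  have hnN : n < a ^ n := Nat.lt_pow_self (by omega)
  have hanN : a ^ n ≤ N := by rw [hN]; exact Nat.le_mul_of_pos_left _ hT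
  have hN16 : 16 ≤ N := by omega
  have hNR : (16 : ℝ) ≤ N := by exact_mod_cast hN16
  have hN0 : (0 : ℝ) < N := by linarith
  have a2 := h2 N (by omega)
  have a3 := h3 N (by omega)
  have a4 := h4 N (by omega)
  rw [← hL] at a2 a3 a4
  have hla : Real.log 2 ≤ Real.log a := Real.log_le_log (by norm_num) haR
  have hl2 := Real.log_two_gt_d9
  have hLe : L = Real.log T + n * Real.log a := by
    rw [hL, hN]
    push_cast
    rw [Real.log_mul (by positivity) (by positivity), Real.log_pow]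
  have hlT : 0 ≤ Real.log T := Real.log_nonneg hTR
  have hnR : (16 : ℝ) ≤ n := by exact_mod_cast (by omega : 16 ≤ n)
  have hn5 : Real.log T ≤ n := h5.trans (by exact_mod_cast (by omega : n5 ≤ n))
  have hL1 : (n : ℝ) ≤ 2 * L := by
    rw [hLe]
    have : (n : ℝ) * Real.log 2 ≤ n * Real.log a := mul_le_mul_of_nonneg_left hla (by linarith)
    nlinarith
  have hL2 : 1 ≤ L := by linarith
  have hL3 : L ≤ n * (1 + Real.log a) := by
    rw [hLe]
    nlinarith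
  have hbs := block_sizes a n
  rw [← hB] at hbs
  have hbs' : a ^ n ≤ B ^ 2 ∧ B ^ 2 ≤ a ^ n * a := by
    rcases hbs with h | h
    · exact h
    · omega
  obtain ⟨b1, b2⟩ := hbs'
  have b1r : ((a : ℝ)) ^ n ≤ (B : ℝ) ^ 2 := by exact_mod_cast b1
  have b2r : (B : ℝ) ^ 2 ≤ (a : ℝ) ^ n * a := by exact_mod_cast b2
  have hB2 : 4 ≤ B := by
    have : 4 ^ 2 ≤ B ^ 2 := by omega
    exact (Nat.pow_le_pow_iff_left (by norm_num)).1 this
  have hYB : B ≤ 4 * Y := by omega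
  have hYBr : (B : ℝ) ≤ 4 * Y := by exact_mod_cast hYB
  have hYleB : (Y : ℝ) ≤ B := by
    rw [hY]
    exact_mod_cast Nat.div_le_self _ _
  have hNr : (N : ℝ) = T * (a : ℝ) ^ n := by rw [hN]; push_cast; ring
  have hsq : (N : ℝ) ^ (1 / 2 : ℝ) = Real.sqrt N := (Real.sqrt_eq_rpow _).symm
  have hB0 : (0 : ℝ) ≤ B := Nat.cast_nonneg B
  -- lower bound for `B`
  have c1 : Real.sqrt N ≤ Real.sqrt T * B := by
    rw [hNr, Real.sqrt_mul (by linarith)]
    apply mul_le_mul_of_nonneg_left _ (Real.sqrt_nonneg _)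
    rw [← Real.sqrt_sq hB0]
    exact Real.sqrt_le_sqrt b1r
  -- upper bound for `B`
  have c2 : (B : ℝ) ≤ Real.sqrt a * Real.sqrt N := by
    rw [← Real.sqrt_mul (by linarith), ← Real.sqrt_sq hB0]
    apply Real.sqrt_le_sqrt
    refine b2r.trans ?_
    have : (a : ℝ) ^ n ≤ N := by exact_mod_cast hanN
    nlinarith
  have d1 : (N : ℝ) ^ (1 / 3 : ℝ) * L ^ C ≤ Y := by
    have e1 : (N : ℝ) ^ (1 / 3 : ℝ) * (4 * Real.sqrt T * L ^ C) ≤ Real.sqrt T * B := by
      refine le_trans ?_ c1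
      rw [← hsq]
      calc (N : ℝ) ^ (1 / 3 : ℝ) * (4 * Real.sqrt T * L ^ C) ≤ (N : ℝ) ^ (1 / 3 : ℝ) * (N : ℝ) ^ (1 / 6 : ℝ) :=
            mul_le_mul_of_nonneg_left a2 (by positivity)
        _ = (N : ℝ) ^ (1 / 2 : ℝ) := by rw [← Real.rpow_add hN0]; norm_num
    have e2 : 0 < Real.sqrt T := Real.sqrt_pos.2 (by linarith)
    have e3 : Real.sqrt T * (4 * ((N : ℝ) ^ (1 / 3 : ℝ) * L ^ C)) ≤ Real.sqrt T * B := by
      calc Real.sqrt T * (4 * ((N : ℝ) ^ (1 / 3 : ℝ) * L ^ C)) = (N : ℝ) ^ (1 / 3 : ℝ) * (4 * Real.sqrt T * L ^ C) := by ring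
        _ ≤ _ := e1
    have e4 := le_of_mul_le_mul_left e3 e2
    linarith
  have hLC : (1 : ℝ) ≤ L ^ C := one_le_pow₀ hL2
  have d2 : (N : ℝ) ^ (1 / 3 : ℝ) ≤ Y := by
    have : 0 ≤ (N : ℝ) ^ (1 / 3 : ℝ) := by positivity
    nlinarith
  refine ⟨by omega, by omega, hYBr, hL2, hL1, hL3, by omega, d1, ?_, ?_, ?_⟩
  · calc (Y : ℝ) * L ^ (C + 2) ≤ (Real.sqrt a * Real.sqrt N) * L ^ (C + 2) :=
          mul_le_mul_of_nonneg_right (hYleB.trans c2) (by positivity)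
      _ = Real.sqrt N * (Real.sqrt a * L ^ (C + 2)) := by ring
      _ ≤ Real.sqrt N * (N : ℝ) ^ (1 / 2 : ℝ) := mul_le_mul_of_nonneg_left a3 (Real.sqrt_nonneg _)
      _ = N := by rw [hsq, Real.mul_self_sqrt hN0.le]
  · calc (3 * L) ^ K * (4 * L) = 3 ^ K * 4 * L ^ (K + 1) := by ring
      _ ≤ (N : ℝ) ^ (1 / 3 : ℝ) := a4
      _ ≤ Y := d2
  · rw [hL]
    have : Real.log N / 3 = Real.log ((N : ℝ) ^ (1 / 3 : ℝ)) := by
      rw [Real.log_rpow hN0]
      ring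
    rw [this]
    exact Real.log_le_log (by positivity) d2

/-- A block with a window with primes has many short intervals with primes. -/
theorem block_many : ∃ C : ℝ, 0 < C ∧ ∀ (a : ℕ), 2 ≤ a → ∀ (h : ℕ → ℕ) (ε : ℝ), 0 < ε → ∀ (n x w B Y : ℕ) (L : ℝ),
    B = a ^ (n - n / 2) → 1 ≤ n → 2 ≤ Y → (B : ℝ) ≤ 4 * Y → 1 ≤ L → L ≤ n * (1 + Real.log a) → L / 3 ≤ Real.log Y →
    ε * n ≤ h n → (h n : ℝ) * (4 * L) ≤ Y → x / B * B ≤ w → w + Y ≤ x / B * B + B →
    3 / 4 * (Y / L) ≤ (((Ioc w (w + Y)).filter Nat.Prime).card : ℝ) →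
    1 / (64 * ((1 + Real.log a) / (2 * ε) + C)) ≤ avg a (good h (1 / (4 * (1 + Real.log a)))) n x := by
  classical
  obtain ⟨C, hC, hm⟩ := many
  refine ⟨9 * C, by positivity, ?_⟩
  intro a ha h ε hε n x w B Y L hB hn hY hBY hL1 hLn hLY hεn hhY hw1 hw2 hpr
  obtain ⟨lam, hlam⟩ : ∃ l, l = 1 + Real.log a := ⟨_, rfl⟩
  rw [← hlam] at hLn ⊢
  have haR : (2 : ℝ) ≤ a := by exact_mod_cast ha
  have hlam0 : 0 < lam := by rw [hlam]; have := Real.log_nonneg (by linarith : (1 : ℝ) ≤ a); linarith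
  obtain ⟨H, hH⟩ : ∃ H, H = h n := ⟨_, rfl⟩
  rw [← hH] at hεn hhY
  have hnR : (1 : ℝ) ≤ n := by exact_mod_cast hn
  have hH0 : (0 : ℝ) < H := lt_of_lt_of_le (by positivity) hεn
  have hH1 : 1 ≤ H := by
    have : 0 < H := by exact_mod_cast hH0
    omega
  have hL0 : 0 < L := by linarith
  have hYR : (2 : ℝ) ≤ Y := by exact_mod_cast hY
  have hHY : H ≤ Y := by
    have : (H : ℝ) ≤ Y := by nlinarith
    exact_mod_cast this
  have hHL : (H : ℝ) ≤ Y / L / 4 := by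
    rw [div_div, le_div_iff₀ (by positivity)]
    linarith
  -- the primes in the shortened window
  have h1 : ((Ioc w (w + Y)).filter Nat.Prime).card ≤ ((Icc (w + H) (w + Y)).filter Nat.Prime).card + H := by
    have h2 : (Ioc w (w + Y)).filter Nat.Prime ⊆ (Icc (w + H) (w + Y)).filter Nat.Prime ∪ Ioc w (w + H) := by
      intro p hp
      simp only [mem_filter, mem_Ioc, mem_union, mem_Icc] at hp ⊢
      by_cases h3 : w + H ≤ p
      · exact Or.inl ⟨⟨h3, hp.1.2⟩, hp.2⟩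
      · exact Or.inr ⟨hp.1.1, by omega⟩
    have h3 := (card_le_card h2).trans (card_union_le _ _)
    rw [Nat.card_Ioc, Nat.add_sub_cancel_left] at h3
    exact h3
  have h1r : (((Ioc w (w + Y)).filter Nat.Prime).card : ℝ) ≤ (((Icc (w + H) (w + Y)).filter Nat.Prime).card : ℝ) + H := by
    exact_mod_cast h1
  obtain ⟨A, hA⟩ : ∃ A : ℝ, A = H * (Y / (2 * L)) := ⟨_, rfl⟩
  have hA0 : 0 < A := by rw [hA]; positivity
  have hYL : (Y : ℝ) / (2 * L) = 1 / 2 * (Y / L) := by field_simp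
  have h2 : A ≤ H * ((Icc (w + H) (w + Y)).filter Nat.Prime).card := by
    rw [hA]
    apply mul_le_mul_of_nonneg_left _ hH0.le
    rw [hYL]
    linarith
  have h3 := hm w Y H hY hH1 hHY A hA0 h2
  obtain ⟨G, hG⟩ : ∃ G, G = (Ico w (w + Y)).filter (fun x => A / (2 * Y) ≤ (cnt H x : ℝ)) := ⟨_, rfl⟩
  rw [← hG] at h3
  have hthr : 1 / (4 * lam) * (H / n) ≤ A / (2 * Y) := by
    have e1 : A / (2 * Y) = H / (4 * L) := by
      rw [hA]
      field_simp
      norm_num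
    rw [e1, div_mul_div_comm, one_mul, div_le_div_iff₀ (by positivity) (by positivity)]
    have : (H : ℝ) * (4 * L) ≤ H * (4 * lam * n) := mul_le_mul_of_nonneg_left (by nlinarith) hH0.le
    linarith
  -- the share
  have hlY : 0 < Real.log Y := by linarith
  have h4 : (1 : ℝ) / (16 * (lam / (2 * ε) + 9 * C)) * Y ≤ G.card := by
    refine le_trans ?_ h3
    have e1 : C * (H : ℝ) ^ 2 * Y / Real.log Y ^ 2 ≤ 9 * C * H ^ 2 * Y / L ^ 2 := by
      rw [div_le_div_iff₀ (by positivity) (by positivity)]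
      have e2 : L ^ 2 ≤ 9 * Real.log Y ^ 2 := by
        have := pow_le_pow_left₀ (by positivity) hLY 2
        nlinarith
      have e3 : 0 ≤ C * (H : ℝ) ^ 2 * Y := by positivity
      nlinarith
    have e4 : L ≤ H * (lam / ε) := by
      have e5 : (n : ℝ) ≤ H / ε := by rw [le_div_iff₀ hε]; linarith
      calc L ≤ n * lam := hLn
        _ ≤ (H / ε) * lam := mul_le_mul_of_nonneg_right e5 hlam0.le
        _ = H * (lam / ε) := by ring
    have e6 : A ≤ H ^ 2 * Y / L ^ 2 * (lam / (2 * ε)) := by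
      rw [hA, div_mul_eq_mul_div, le_div_iff₀ (by positivity)]
      have e7 : (H : ℝ) * (Y / (2 * L)) * L ^ 2 = H * Y / 2 * L := by field_simp
      rw [e7]
      calc (H : ℝ) * Y / 2 * L ≤ H * Y / 2 * (H * (lam / ε)) := mul_le_mul_of_nonneg_left e4 (by positivity)
        _ = H ^ 2 * Y * (lam / (2 * ε)) := by field_simp
    have e8 : 4 * (A + C * (H : ℝ) ^ 2 * Y / Real.log Y ^ 2) ≤ 4 * (H ^ 2 * Y / L ^ 2 * (lam / (2 * ε) + 9 * C)) := by
      have e9 : 9 * C * (H : ℝ) ^ 2 * Y / L ^ 2 = H ^ 2 * Y / L ^ 2 * (9 * C) := by ring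
      rw [e9] at e1
      nlinarith
    have e10 : 0 < A + C * (H : ℝ) ^ 2 * Y / Real.log Y ^ 2 := by positivity
    rw [le_div_iff₀ (by positivity)]
    refine (mul_le_mul_of_nonneg_left e8 (by positivity)).trans ?_
    have e11 : 0 < lam / (2 * ε) + 9 * C := by positivity
    rw [hA]
    apply le_of_eq
    field_simp
    ring
  -- the block
  have hB0 : 0 < B := by rw [hB]; exact Nat.pow_pos (by omega)
  have hB0r : (0 : ℝ) < B := by exact_mod_cast hB0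
  have h5 : (G.card : ℝ) ≤ ∑ l ∈ range B, good h (1 / (4 * lam)) n (x / B * B + l) := by
    have h6 : ∑ l ∈ range B, good h (1 / (4 * lam)) n (x / B * B + l) =
        (((range B).filter (fun l => 1 / (4 * lam) * (h n / n) ≤ (cnt (h n) (x / B * B + l) : ℝ))).card : ℝ) := by
      unfold good
      rw [sum_boole]
    rw [h6]
    norm_cast
    apply card_le_card_of_injOn (fun y => y - x / B * B)
    · intro y hy
      rw [hG] at hy
      simp only [coe_filter, mem_Ico, mem_range] at hy ⊢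
      obtain ⟨⟨y1, y2⟩, y3⟩ := hy
      refine ⟨by omega, ?_⟩
      have e : x / B * B + (y - x / B * B) = y := by omega
      rw [e, ← hH]
      exact hthr.trans y3
    · intro y hy z hz hyz
      rw [hG] at hy hz
      simp only [coe_filter, mem_Ico] at hy hz
      obtain ⟨⟨y1, y2⟩, -⟩ := hy
      obtain ⟨⟨z1, z2⟩, -⟩ := hz
      simp only at hyz
      omega
  unfold avg
  rw [← hB, le_div_iff₀ hB0r]
  refine le_trans ?_ h5
  refine le_trans ?_ h4
  have e12 : 0 < lam / (2 * ε) + 9 * C := by positivity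
  rw [div_mul_eq_mul_div, div_mul_eq_mul_div, div_le_div_iff₀ (by positivity) (by positivity)]
  nlinarith

end Run7.h946.PW
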