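import Pool.Agent.Run7.h946.PW.Meas

/-!
# Harmonic averages over levels: functions with bounded second moments
-/

set_option autoImplicit false

namespace Run7.h946.PW

open Finset Filter Topology MeasureTheory

theorem wsq (s : Finset ℕ) (w f : ℕ → ℝ) (hw : ∀ n ∈ s, 0 ≤ w n) :
    (∑ n ∈ s, w n * f n) ^ 2 ≤ (∑ n ∈ s, w n) * ∑ n ∈ s, w n * f n ^ 2 := by
  have h1 := sum_mul_sq_le_sq_mul_sq s (fun n => Real.sqrt (w n)) (fun n => Real.sqrt (w n) * f n)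
  have e1 : ∑ n ∈ s, Real.sqrt (w n) * (Real.sqrt (w n) * f n) = ∑ n ∈ s, w n * f n := by
    refine sum_congr rfl fun n hn => ?_
    rw [← mul_assoc, Real.mul_self_sqrt (hw n hn)]
  have e2 : ∑ n ∈ s, Real.sqrt (w n) ^ 2 = ∑ n ∈ s, w n := by
    refine sum_congr rfl fun n hn => ?_
    rw [Real.sq_sqrt (hw n hn)]
  have e3 : ∑ n ∈ s, (Real.sqrt (w n) * f n) ^ 2 = ∑ n ∈ s, w n * f n ^ 2 := by
    refine sum_congr rfl fun n hn => ?_
    rw [mul_pow, Real.sq_sqrt (hw n hn)]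
  rw [e1, e2, e3] at h1
  exact h1

theorem dif_block_sq {a : ℕ} (ha : 2 ≤ a) (g : ℕ → ℕ → ℝ) (m i : ℕ) :
    ∑ l ∈ range (a ^ (m - m / 2)), dif a g m (i * a ^ (m - m / 2) + l) ^ 2 ≤
      ∑ l ∈ range (a ^ (m - m / 2)), g m (i * a ^ (m - m / 2) + l) ^ 2 := by
  obtain ⟨B, hB⟩ : ∃ B, B = a ^ (m - m / 2) := ⟨_, rfl⟩
  have hB0 : 0 < B := by rw [hB]; exact Nat.pow_pos (by omega)
  have hBr : (0 : ℝ) < B := by exact_mod_cast hB0
  obtain ⟨S, hS⟩ : ∃ S, S = ∑ l ∈ range B, g m (i * B + l) := ⟨_, rfl⟩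
  have h1 : ∀ l ∈ range B, avg a g m (i * B + l) = S / B := by
    intro l hl
    rw [mem_range] at hl
    unfold avg
    rw [← hB]
    have : (i * B + l) / B = i := by
      rw [mul_comm, Nat.mul_add_div hB0, Nat.div_eq_of_lt hl, add_zero]
    rw [this, hS]
  rw [← hB]
  have h2 : ∀ l ∈ range B, dif a g m (i * B + l) ^ 2 =
      g m (i * B + l) ^ 2 - 2 * (S / B) * g m (i * B + l) + (S / B) ^ 2 := by
    intro l hl
    unfold dif
    rw [h1 l hl]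
    ring
  rw [sum_congr rfl h2, sum_add_distrib, sum_sub_distrib, ← mul_sum, ← hS, sum_const, card_range, nsmul_eq_mul]
  have h3 : 2 * (S / B) * S = 2 * (B * (S / B) ^ 2) := by field_simp
  have h4 : 0 ≤ (B : ℝ) * (S / B) ^ 2 := by positivity
  linarith

theorem dif_sq {a : ℕ} (ha : 2 ≤ a) (g : ℕ → ℕ → ℝ) (T M n : ℕ) (hn : n ≤ M) :
    ∑ k ∈ range (T * a ^ M), dif a g n (k / a ^ (M - n)) ^ 2 ≤
      (∑ y ∈ range (T * a ^ n), g n y ^ 2) * (a ^ (M - n) : ℕ) := by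
  have ha0 : 0 < a := by omega
  have e1 : T * a ^ M = (T * a ^ n) * a ^ (M - n) := by
    rw [mul_assoc, ← pow_add]
    congr 2
    omega
  have e2 : ∀ k : ℕ, dif a g n (k / a ^ (M - n)) ^ 2 =
      (fun y => dif a g n y ^ 2) (k / a ^ (M - n)) * (fun _ => (1 : ℝ)) k := by
    intro k
    simp only [mul_one]
  rw [e1, sum_congr rfl (fun k _ => e2 k),
    block_sum (fun y => dif a g n y ^ 2) (fun _ => (1 : ℝ)) _ (Nat.pow_pos ha0)]
  simp only [sum_const, card_range, nsmul_eq_mul, mul_one]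
  rw [← sum_mul]
  apply mul_le_mul_of_nonneg_right _ (Nat.cast_nonneg _)
  have e3 : T * a ^ n = (T * a ^ (n / 2)) * a ^ (n - n / 2) := by
    rw [mul_assoc, ← pow_add]
    congr 2
    omega
  have e4 : ∀ f : ℕ → ℝ, ∑ y ∈ range (T * a ^ n), f y =
      ∑ i ∈ range (T * a ^ (n / 2)), ∑ l ∈ range (a ^ (n - n / 2)), f (i * a ^ (n - n / 2) + l) := by
    intro f
    have h1 := block_sum (fun _ => (1 : ℝ)) f _ (Nat.pow_pos ha0 (n := n - n / 2)) (T * a ^ (n / 2))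
    simp only [one_mul] at h1
    rw [e3]
    exact h1
  rw [e4, e4]
  exact sum_le_sum fun i _ => dif_block_sq ha g n i

theorem blk_sq {a : ℕ} (ha : 2 ≤ a) (g : ℕ → ℕ → ℝ) (T M i : ℕ) (hM : 2 ^ (i + 1) ≤ M) {Q : ℝ} (hQ0 : 0 ≤ Q)
    (hQ : ∀ n, 1 ≤ n → ∑ y ∈ range (T * a ^ n), g n y ^ 2 ≤ Q * (T * a ^ n : ℕ)) :
    ∑ k ∈ range (T * a ^ M), blk a g M i k ^ 2 ≤ Q * (T * a ^ M : ℕ) := by
  have h1 : ∀ k ∈ range (T * a ^ M), blk a g M i k ^ 2 ≤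
      ∑ n ∈ (Ico (2 ^ i) (2 ^ (i + 1)) : Finset ℕ), 1 / (n : ℝ) * dif a g n (k / a ^ (M - n)) ^ 2 := by
    intro k _
    have h2 := wsq (Ico (2 ^ i) (2 ^ (i + 1))) (fun n => 1 / (n : ℝ)) (fun n => dif a g n (k / a ^ (M - n)))
      (fun n _ => by positivity)
    have e1 : ∑ n ∈ (Ico (2 ^ i) (2 ^ (i + 1)) : Finset ℕ), 1 / (n : ℝ) * dif a g n (k / a ^ (M - n)) = blk a g M i k := by
      unfold blk
      refine sum_congr rfl fun n _ => ?_
      ring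
    rw [e1] at h2
    refine h2.trans ?_
    have h3 : 0 ≤ ∑ n ∈ (Ico (2 ^ i) (2 ^ (i + 1)) : Finset ℕ), 1 / (n : ℝ) * dif a g n (k / a ^ (M - n)) ^ 2 :=
      sum_nonneg fun n _ => by positivity
    calc _ ≤ 1 * ∑ n ∈ (Ico (2 ^ i) (2 ^ (i + 1)) : Finset ℕ), 1 / (n : ℝ) * dif a g n (k / a ^ (M - n)) ^ 2 :=
          mul_le_mul_of_nonneg_right (harm_le i) h3
      _ = _ := one_mul _
  refine (sum_le_sum h1).trans ?_
  rw [sum_comm]
  have h2 : ∀ n ∈ (Ico (2 ^ i) (2 ^ (i + 1)) : Finset ℕ), ∑ k ∈ range (T * a ^ M), 1 / (n : ℝ) * dif a g n (k / a ^ (M - n)) ^ 2 ≤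
      1 / (n : ℝ) * (Q * (T * a ^ M : ℕ)) := by
    intro n hn
    rw [mem_Ico] at hn
    have hn1 : 1 ≤ n := le_trans Nat.one_le_two_pow hn.1
    rw [← mul_sum]
    apply mul_le_mul_of_nonneg_left _ (by positivity)
    refine (dif_sq ha g T M n (by omega)).trans ?_
    refine (mul_le_mul_of_nonneg_right (hQ n hn1) (Nat.cast_nonneg _)).trans (le_of_eq ?_)
    have e : (T * a ^ M : ℕ) = (T * a ^ n) * a ^ (M - n) := by
      rw [mul_assoc, ← pow_add]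
      congr 2
      omega
    rw [e]
    push_cast
    ring
  refine (sum_le_sum h2).trans ?_
  rw [← sum_mul]
  calc _ ≤ 1 * (Q * (T * a ^ M : ℕ)) := mul_le_mul_of_nonneg_right (harm_le i) (by positivity)
    _ = _ := one_mul _

theorem second' {a : ℕ} (ha : 2 ≤ a) (g : ℕ → ℕ → ℝ) (T M I : ℕ) (hM : 2 ^ I ≤ M) {Q : ℝ} (hQ0 : 0 ≤ Q)
    (hQ : ∀ n, 1 ≤ n → ∑ y ∈ range (T * a ^ n), g n y ^ 2 ≤ Q * (T * a ^ n : ℕ)) :
    ∑ k ∈ range (T * a ^ M), (∑ i ∈ range I, blk a g M i k) ^ 2 ≤ 3 * I * (Q * (T * a ^ M : ℕ)) := by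
  have h1 : ∀ k, (∑ i ∈ range I, blk a g M i k) ^ 2 =
      ∑ i ∈ range I, ∑ i' ∈ range I, blk a g M i k * blk a g M i' k := by
    intro k
    rw [sq, sum_mul_sum]
  have h2 : ∑ k ∈ range (T * a ^ M), (∑ i ∈ range I, blk a g M i k) ^ 2 =
      ∑ i ∈ range I, ∑ i' ∈ range I, ∑ k ∈ range (T * a ^ M), blk a g M i k * blk a g M i' k := by
    rw [sum_congr rfl (fun k _ => h1 k), sum_comm]
    refine sum_congr rfl fun i _ => ?_
    rw [sum_comm]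
  rw [h2]
  have hbs : ∀ i, i < I → ∑ k ∈ range (T * a ^ M), blk a g M i k ^ 2 ≤ Q * (T * a ^ M : ℕ) := by
    intro i hi
    exact blk_sq ha g T M i (le_trans (Nat.pow_le_pow_right (by norm_num) (by omega)) hM) hQ0 hQ
  have h3 : ∀ i ∈ range I, ∑ i' ∈ range I, ∑ k ∈ range (T * a ^ M), blk a g M i k * blk a g M i' k ≤
      3 * (Q * (T * a ^ M : ℕ)) := by
    intro i hi
    rw [mem_range] at hi
    have h4 : ∀ i' ∈ range I, ∑ k ∈ range (T * a ^ M), blk a g M i k * blk a g M i' k ≤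
        if i' ∈ Icc (i - 1) (i + 1) then (Q * (T * a ^ M : ℕ)) else 0 := by
      intro i' hi'
      rw [mem_range] at hi'
      split_ifs with hc
      · have b1 := hbs i hi
        have b2 := hbs i' hi'
        have b3 : ∑ k ∈ range (T * a ^ M), blk a g M i k * blk a g M i' k ≤
            ∑ k ∈ range (T * a ^ M), (1 / 2 * blk a g M i k ^ 2 + 1 / 2 * blk a g M i' k ^ 2) := by
          refine sum_le_sum fun k _ => ?_
          nlinarith [sq_nonneg (blk a g M i k - blk a g M i' k)]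
        rw [sum_add_distrib, ← mul_sum, ← mul_sum] at b3
        linarith
      · rw [mem_Icc] at hc
        rcases lt_or_ge i i' with h5 | h5
        · rw [blk_orth ha g T M i i' (by omega) (le_trans (Nat.pow_le_pow_right (by norm_num) (by omega)) hM)]
        · have h6 := blk_orth ha g T M i' i (by omega) (le_trans (Nat.pow_le_pow_right (by norm_num) (by omega)) hM)
          rw [sum_congr rfl (fun k _ => mul_comm _ _), h6]
    refine (sum_le_sum h4).trans ?_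
    rw [← sum_filter, sum_const, nsmul_eq_mul]
    apply mul_le_mul_of_nonneg_right _ (by positivity)
    have h5 : ((range I).filter (fun i' => i' ∈ Icc (i - 1) (i + 1))).card ≤ 3 := by
      refine (card_le_card (t := Icc (i - 1) (i + 1)) ?_).trans ?_
      · intro x hx
        exact (mem_filter.1 hx).2
      · rw [Nat.card_Icc]
        omega
    exact_mod_cast h5
  refine (sum_le_sum h3).trans ?_
  rw [sum_const, card_range, nsmul_eq_mul]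
  exact le_of_eq (by ring)

theorem cheb' {a : ℕ} (ha : 2 ≤ a) (g : ℕ → ℕ → ℝ) (T M I : ℕ) (hM : 2 ^ I ≤ M) (hI : 0 < I) {Q : ℝ} (hQ0 : 0 ≤ Q)
    (hQ : ∀ n, 1 ≤ n → ∑ y ∈ range (T * a ^ n), g n y ^ 2 ≤ Q * (T * a ^ n : ℕ)) {η : ℝ} (hη : 0 < η) :
    (((range (T * a ^ M)).filter (fun k => η * I ≤ |∑ i ∈ range I, blk a g M i k|)).card : ℝ) ≤
      3 * Q * T / (η ^ 2 * I) * (a ^ M : ℕ) := by
  have h1 := second' ha g T M I hM hQ0 hQ
  have hIr : (0 : ℝ) < I := by exact_mod_cast hI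
  obtain ⟨S, hS⟩ : ∃ S, S = (range (T * a ^ M)).filter (fun k => η * I ≤ |∑ i ∈ range I, blk a g M i k|) := ⟨_, rfl⟩
  rw [← hS]
  have h2 : (S.card : ℝ) * (η * I) ^ 2 ≤ 3 * I * (Q * (T * a ^ M : ℕ)) := by
    refine le_trans ?_ h1
    rw [← nsmul_eq_mul, ← sum_const]
    refine le_trans (sum_le_sum fun k hk => ?_)
      (sum_le_sum_of_subset_of_nonneg (s := S) (by rw [hS]; exact filter_subset _ _) fun k _ _ => sq_nonneg _)
    rw [hS, mem_filter] at hk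
    rw [← sq_abs (∑ i ∈ range I, blk a g M i k)]
    exact pow_le_pow_left₀ (by positivity) hk.2 2
  rw [div_mul_eq_mul_div, le_div_iff₀ (by positivity)]
  push_cast at h2 ⊢
  have h3 : (S.card : ℝ) * (η ^ 2 * I) * I ≤ 3 * Q * T * (a : ℝ) ^ M * I := by
    calc (S.card : ℝ) * (η ^ 2 * I) * I = (S.card : ℝ) * (η * I) ^ 2 := by ring
      _ ≤ 3 * I * (Q * (T * (a : ℝ) ^ M)) := h2
      _ = 3 * Q * T * (a : ℝ) ^ M * I := by ring
  exact le_of_mul_le_mul_right h3 hIr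

theorem squares' {a : ℕ} (ha : 2 ≤ a) (g : ℕ → ℕ → ℝ) (T : ℕ) {Q : ℝ} (hQ0 : 0 ≤ Q)
    (hQ : ∀ n, 1 ≤ n → ∑ y ∈ range (T * a ^ n), g n y ^ 2 ≤ Q * (T * a ^ n : ℕ)) {η : ℝ}
    (hη : 0 < η) : ∀ᵐ β : ℝ, 0 ≤ β → β < T → ∀ᶠ s : ℕ in atTop,
      |∑ i ∈ range ((s + 1) ^ 2), sb a g β i| < η * ((s + 1 : ℕ) : ℝ) ^ 2 := by
  classical
  obtain ⟨Z, hZ⟩ : ∃ Z : ℕ → Set ℝ, Z = fun s => {β : ℝ | 0 ≤ β ∧ β < T ∧
    η * (((s + 1) ^ 2 : ℕ) : ℝ) ≤ |∑ i ∈ range ((s + 1) ^ 2), blk a g (2 ^ ((s + 1) ^ 2)) i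
      ⌊β * (a : ℝ) ^ (2 ^ ((s + 1) ^ 2))⌋₊|} := ⟨_, rfl⟩
  have h1 : ∀ s, volume (Z s) ≤ ENNReal.ofReal (3 * Q * T / η ^ 2 * (1 / ((s + 1 : ℕ) : ℝ) ^ 2)) := by
    intro s
    rw [hZ]
    refine (vol_le ha T (2 ^ ((s + 1) ^ 2)) (fun k => η * (((s + 1) ^ 2 : ℕ) : ℝ) ≤
      |∑ i ∈ range ((s + 1) ^ 2), blk a g (2 ^ ((s + 1) ^ 2)) i k|)).trans ?_
    apply ENNReal.ofReal_le_ofReal
    have h2 := cheb' ha g T (2 ^ ((s + 1) ^ 2)) ((s + 1) ^ 2) le_rfl (by positivity) hQ0 hQ hη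
    have haM : (0 : ℝ) < (a : ℝ) ^ (2 ^ ((s + 1) ^ 2)) := by
      have : (0 : ℝ) < a := by
        have : 0 < a := by omega
        exact_mod_cast this
      positivity
    rw [div_le_iff₀ haM]
    refine h2.trans (le_of_eq ?_)
    push_cast
    have h3 : ((s : ℝ) + 1) ≠ 0 := by positivity
    field_simp
  have h2 : ∑' s, volume (Z s) ≠ ⊤ := by
    have h3 : Summable (fun s : ℕ => 3 * Q * T / η ^ 2 * (1 / ((s + 1 : ℕ) : ℝ) ^ 2)) := by
      apply Summable.mul_left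
      have h4 : Summable (fun s : ℕ => 1 / (s : ℝ) ^ 2) := by
        rw [Real.summable_one_div_nat_pow]
        norm_num
      exact (summable_nat_add_iff 1).2 h4
    exact ne_top_of_le_ne_top h3.tsum_ofReal_ne_top (ENNReal.tsum_le_tsum h1)
  filter_upwards [ae_eventually_notMem h2] with β hβ h0 hT
  filter_upwards [hβ] with s hs
  rw [hZ] at hs
  have h5 : ¬ (0 ≤ β ∧ β < T ∧ η * (((s + 1) ^ 2 : ℕ) : ℝ) ≤ |∑ i ∈ range ((s + 1) ^ 2),
      blk a g (2 ^ ((s + 1) ^ 2)) i ⌊β * (a : ℝ) ^ (2 ^ ((s + 1) ^ 2))⌋₊|) := hs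
  rw [blk_eq ha g β _ _ le_rfl] at h5
  push Not at h5
  have h6 := h5 h0 hT
  push_cast at h6 ⊢
  exact h6

/-- harmonic sums -/
theorem harm_log (I : ℕ) : I * Real.log 2 ≤ ∑ n ∈ (Ico 1 (2 ^ I) : Finset ℕ), (1 : ℝ) / n ∧
    ∑ n ∈ (Ico 1 (2 ^ I) : Finset ℕ), (1 : ℝ) / n ≤ 1 + I * Real.log 2 := by
  have e1 : ∑ n ∈ (Ico 1 (2 ^ I) : Finset ℕ), (1 : ℝ) / n = (_root_.harmonic (2 ^ I - 1) : ℝ) := by
    rw [harmonic_eq_sum_Icc]
    push_cast
    have : (Ico 1 (2 ^ I) : Finset ℕ) = Icc 1 (2 ^ I - 1) := by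
      ext n
      rw [mem_Ico, mem_Icc]
      have := Nat.one_le_two_pow (n := I)
      omega
    rw [this]
    refine sum_congr rfl fun n _ => ?_
    rw [one_div]
  rw [e1]
  have h1 := log_add_one_le_harmonic (2 ^ I - 1)
  have h2 := harmonic_le_one_add_log (2 ^ I - 1)
  have e2 : ((2 ^ I - 1 : ℕ) : ℝ) + 1 = 2 ^ I := by
    have := Nat.one_le_two_pow (n := I)
    push_cast [Nat.cast_sub this]
    ring
  have e3 : Real.log ((2 : ℝ) ^ I) = I * Real.log 2 := Real.log_pow _ _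
  constructor
  · have h3 : Real.log (((2 ^ I - 1 : ℕ) : ℝ) + 1) = I * Real.log 2 := by rw [e2, e3]
    rw [← h3]
    exact_mod_cast h1
  · refine h2.trans ?_
    have h4 : Real.log ((2 ^ I - 1 : ℕ) : ℝ) ≤ I * Real.log 2 := by
      rw [← e3]
      rcases Nat.eq_zero_or_pos (2 ^ I - 1) with h | h
      · rw [h, Nat.cast_zero, Real.log_zero]
        exact Real.log_nonneg (one_le_pow₀ (by norm_num))
      · apply Real.log_le_log (by exact_mod_cast h)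
        linarith
    linarith

end Run7.h946.PW
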