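import Pool.Agent.Run7.h946.PW.BlockAvg

/-!
# Logarithmic means of the prime counts along `β a ^ n`
-/

set_option autoImplicit false
set_option maxHeartbeats 4000000

namespace Run7.h946.PW

open Finset Filter Topology MeasureTheory

theorem log_nat_tendsto : Tendsto (fun N : ℕ => Real.log N) atTop atTop :=
  Real.tendsto_log_atTop.comp tendsto_natCast_atTop_atTop

theorem const_div_log (C : ℝ) : Tendsto (fun N : ℕ => C / Real.log N) atTop (𝓝 0) :=
  log_nat_tendsto.const_div_atTop C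

theorem mean_squeeze {f u w : ℕ → ℝ} {m : ℝ} (h : ∀ᶠ n in atTop, u n ≤ f n ∧ f n ≤ w n)
    (hu : Tendsto (fun N : ℕ => (∑ n ∈ Icc 1 N, u n) / Real.log N) atTop (𝓝 m))
    (hw : Tendsto (fun N : ℕ => (∑ n ∈ Icc 1 N, w n) / Real.log N) atTop (𝓝 m)) :
    Tendsto (fun N : ℕ => (∑ n ∈ Icc 1 N, f n) / Real.log N) atTop (𝓝 m) := by
  classical
  obtain ⟨n₀, hn₀⟩ := eventually_atTop.1 h
  obtain ⟨C, hC⟩ : ∃ C, C = ∑ n ∈ range n₀, (|f n - u n| + |w n - f n|) := ⟨_, rfl⟩
  have hite : ∀ N : ℕ, ∑ n ∈ Icc 1 N, (if n ∈ range n₀ then |f n - u n| + |w n - f n| else 0) ≤ C := by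
    intro N
    rw [← sum_filter, hC]
    refine sum_le_sum_of_subset_of_nonneg ?_ fun n _ _ => by positivity
    intro n hn
    exact (mem_filter.1 hn).2
  have key1 : ∀ N : ℕ, ∑ n ∈ Icc 1 N, u n - C ≤ ∑ n ∈ Icc 1 N, f n := by
    intro N
    have h1 : ∑ n ∈ Icc 1 N, u n ≤
        ∑ n ∈ Icc 1 N, (f n + (if n ∈ range n₀ then |f n - u n| + |w n - f n| else 0)) := by
      refine sum_le_sum fun n _ => ?_
      split_ifs with hc
      · have h2 := neg_abs_le (f n - u n)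
        have h3 := abs_nonneg (w n - f n)
        linarith
      · rw [mem_range, not_lt] at hc
        linarith [(hn₀ n hc).1]
    rw [sum_add_distrib] at h1
    linarith [hite N]
  have key2 : ∀ N : ℕ, ∑ n ∈ Icc 1 N, f n ≤ ∑ n ∈ Icc 1 N, w n + C := by
    intro N
    have h1 : ∑ n ∈ Icc 1 N, f n ≤
        ∑ n ∈ Icc 1 N, (w n + (if n ∈ range n₀ then |f n - u n| + |w n - f n| else 0)) := by
      refine sum_le_sum fun n _ => ?_
      split_ifs with hc
      · have h2 := neg_abs_le (w n - f n)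
        have h3 := abs_nonneg (f n - u n)
        linarith
      · rw [mem_range, not_lt] at hc
        linarith [(hn₀ n hc).2]
    rw [sum_add_distrib] at h1
    linarith [hite N]
  have l1 := hu.sub (const_div_log C)
  have l2 := hw.add (const_div_log C)
  rw [sub_zero] at l1
  rw [add_zero] at l2
  have hpos : ∀ᶠ N : ℕ in atTop, 0 < Real.log N := log_nat_tendsto.eventually_gt_atTop 0
  refine tendsto_of_tendsto_of_tendsto_of_le_of_le' l1 l2 ?_ ?_
  · filter_upwards [hpos] with N hN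
    rw [← sub_div]
    exact div_le_div_of_nonneg_right (key1 N) hN.le
  · filter_upwards [hpos] with N hN
    rw [← add_div]
    exact div_le_div_of_nonneg_right (key2 N) hN.le

theorem mean_mul {u v : ℕ → ℝ} {m v₀ : ℝ} (hu : ∀ n, 0 ≤ u n) (hm : 0 ≤ m)
    (h1 : Tendsto (fun N : ℕ => (∑ n ∈ Icc 1 N, u n) / Real.log N) atTop (𝓝 m)) (h2 : Tendsto v atTop (𝓝 v₀)) :
    Tendsto (fun N : ℕ => (∑ n ∈ Icc 1 N, u n * v n) / Real.log N) atTop (𝓝 (m * v₀)) := by
  classical
  have h0 : Tendsto (fun N : ℕ => (∑ n ∈ Icc 1 N, u n * (v n - v₀)) / Real.log N) atTop (𝓝 0) := by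
    rw [Metric.tendsto_atTop]
    intro ε hε
    obtain ⟨δ, hδ⟩ : ∃ δ, δ = ε / (4 * (m + 1)) := ⟨_, rfl⟩
    have hδ0 : 0 < δ := by rw [hδ]; positivity
    obtain ⟨n₀, hn₀⟩ := Metric.tendsto_atTop.1 h2 δ hδ0
    obtain ⟨C, hC⟩ : ∃ C, C = ∑ n ∈ range n₀, u n * |v n - v₀| := ⟨_, rfl⟩
    have e1 : ∀ᶠ N : ℕ in atTop, C / Real.log N < ε / 2 := (const_div_log C).eventually_lt_const (by positivity)
    have e2 : ∀ᶠ N : ℕ in atTop, (∑ n ∈ Icc 1 N, u n) / Real.log N < m + 1 := h1.eventually_lt_const (by linarith)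
    have hpos : ∀ᶠ N : ℕ in atTop, 0 < Real.log N := log_nat_tendsto.eventually_gt_atTop 0
    obtain ⟨N₀, hN₀⟩ := eventually_atTop.1 (e1.and (e2.and hpos))
    refine ⟨N₀, fun N hN => ?_⟩
    obtain ⟨a1, a2, a3⟩ := hN₀ N hN
    have h3 : |∑ n ∈ Icc 1 N, u n * (v n - v₀)| ≤ C + δ * ∑ n ∈ Icc 1 N, u n := by
      refine (abs_sum_le_sum_abs _ _).trans ?_
      have h4 : ∀ n ∈ Icc 1 N, |u n * (v n - v₀)| ≤
          (if n ∈ range n₀ then u n * |v n - v₀| else 0) + δ * u n := by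
        intro n _
        rw [abs_mul, abs_of_nonneg (hu n)]
        split_ifs with hc
        · have : 0 ≤ δ * u n := mul_nonneg hδ0.le (hu n)
          linarith
        · rw [mem_range, not_lt] at hc
          have h5 := hn₀ n hc
          rw [Real.dist_eq] at h5
          have h6 := mul_le_mul_of_nonneg_left h5.le (hu n)
          linarith
      refine (sum_le_sum h4).trans ?_
      rw [sum_add_distrib, ← mul_sum]
      apply add_le_add _ le_rfl
      rw [← sum_filter, hC]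
      refine sum_le_sum_of_subset_of_nonneg ?_ fun n _ _ => mul_nonneg (hu n) (abs_nonneg _)
      intro n hn
      exact (mem_filter.1 hn).2
    rw [Real.dist_eq, sub_zero, abs_div, abs_of_pos a3]
    calc |∑ n ∈ Icc 1 N, u n * (v n - v₀)| / Real.log N ≤ (C + δ * ∑ n ∈ Icc 1 N, u n) / Real.log N :=
          div_le_div_of_nonneg_right h3 a3.le
      _ = C / Real.log N + δ * ((∑ n ∈ Icc 1 N, u n) / Real.log N) := by ring
      _ ≤ C / Real.log N + δ * (m + 1) := by
          have := mul_le_mul_of_nonneg_left a2.le hδ0.le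
          linarith
      _ = C / Real.log N + ε / 4 := by
          rw [hδ]
          field_simp
      _ < ε := by linarith
  have h3 := h0.add (h1.mul_const v₀)
  rw [zero_add] at h3
  refine h3.congr fun N => ?_
  rw [div_mul_eq_mul_div, ← add_div, sum_mul, ← sum_add_distrib]
  congr 1
  exact sum_congr rfl fun n _ => by ring

/-- **The law for sequences of lengths.** -/
theorem mean_seq {a : ℕ} (ha : 2 ≤ a) (h : ℕ → ℕ) {ε : ℝ} (hε : 0 < ε) (K : ℕ)
    (hh : ∀ᶠ n : ℕ in atTop, ε * n ≤ h n ∧ h n ≤ (n + 1) ^ K) : ∀ᵐ β : ℝ, 0 < β →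
    Tendsto (fun N : ℕ => (∑ n ∈ Icc 1 N, gm h n ⌊β * (a : ℝ) ^ n⌋₊ / n) / Real.log N) atTop
      (𝓝 (1 / Real.log a)) := by
  have haR : (2 : ℝ) ≤ a := by exact_mod_cast ha
  have hla : 0 < Real.log a := Real.log_pos (by linarith)
  have key : ∀ T : ℕ, ∀ᵐ β : ℝ, 0 < β → β < T →
      Tendsto (fun N : ℕ => (∑ n ∈ Icc 1 N, gm h n ⌊β * (a : ℝ) ^ n⌋₊ / n) / Real.log N) atTop
        (𝓝 (1 / Real.log a)) := by
    intro T
    rcases Nat.eq_zero_or_pos T with hT | hT
    · refine Eventually.of_forall fun β h0 h1 => ?_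
      rw [hT, Nat.cast_zero] at h1
      exact absurd h0 (not_lt.2 h1.le)
    · obtain ⟨Q, hQ0, hQ⟩ := gm_second ha T hT h hε K hh
      have s1 : ∀ q : ℕ, ∀ᵐ β : ℝ, 0 ≤ β → β < T → ∀ᶠ s : ℕ in atTop,
          |∑ i ∈ range ((s + 1) ^ 2), sb a (gm h) β i| < 1 / ((q : ℝ) + 1) * ((s + 1 : ℕ) : ℝ) ^ 2 := fun q =>
        squares' ha (gm h) T hQ0 hQ (η := 1 / ((q : ℝ) + 1)) (by positivity)
      have s2 : ∀ q : ℕ, ∀ᵐ β : ℝ, 0 < β → β < T → ∀ᶠ n : ℕ in atTop,
          |avg a (gm h) n ⌊β * (a : ℝ) ^ n⌋₊ - 1 / Real.log a| < 1 / ((q : ℝ) + 1) := fun q =>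
        avg_ae ha h hε K hh T (δ := 1 / ((q : ℝ) + 1)) (by positivity)
      filter_upwards [ae_all_iff.2 s1, ae_all_iff.2 s2] with β h1 h2 h0 hβT
      refine mean_of (gm_nonneg h) β (1 / Real.log a) (by positivity) ?_ ?_
      · intro η hη
        obtain ⟨q, hq⟩ := exists_nat_one_div_lt hη
        filter_upwards [h1 q h0.le hβT] with s hs
        refine hs.trans_le ?_
        exact mul_le_mul_of_nonneg_right hq.le (by positivity)
      · rw [Metric.tendsto_atTop]
        intro η hη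
        obtain ⟨q, hq⟩ := exists_nat_one_div_lt hη
        obtain ⟨n₀, hn₀⟩ := eventually_atTop.1 (h2 q h0 hβT)
        refine ⟨n₀, fun n hn => ?_⟩
        rw [Real.dist_eq]
        exact (hn₀ n hn).trans hq
  filter_upwards [ae_all_iff.2 key] with β hβ h0
  obtain ⟨T, hT⟩ := exists_nat_gt β
  exact hβ T h0 hT

end Run7.h946.PW
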