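import Mathlib

/-!
# Harmonic averages over levels: a law of large numbers for functions of the first digits
-/

set_option autoImplicit false

namespace Run7.h946.PW

open Finset

/-- the mean value of `g n` over the block of length `a ^ (n - n / 2)` of `x` -/
noncomputable def avg (a : ℕ) (g : ℕ → ℕ → ℝ) (n x : ℕ) : ℝ :=
  (∑ l ∈ range (a ^ (n - n / 2)), g n (x / a ^ (n - n / 2) * a ^ (n - n / 2) + l)) / (a ^ (n - n / 2) : ℕ)

/-- the difference -/
noncomputable def dif (a : ℕ) (g : ℕ → ℕ → ℝ) (n x : ℕ) : ℝ := g n x - avg a g n x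

theorem avg_mem {a : ℕ} (ha : 2 ≤ a) {g : ℕ → ℕ → ℝ} (hg : ∀ n x, 0 ≤ g n x ∧ g n x ≤ 1) (n x : ℕ) :
    0 ≤ avg a g n x ∧ avg a g n x ≤ 1 := by
  have hB : (0 : ℝ) < (a ^ (n - n / 2) : ℕ) := by exact_mod_cast Nat.pow_pos (by omega)
  unfold avg
  constructor
  · exact div_nonneg (sum_nonneg fun l _ => (hg _ _).1) hB.le
  · rw [div_le_one hB]
    calc ∑ l ∈ range (a ^ (n - n / 2)), g n (x / a ^ (n - n / 2) * a ^ (n - n / 2) + l)
        ≤ ∑ l ∈ range (a ^ (n - n / 2)), (1 : ℝ) := sum_le_sum fun l _ => (hg _ _).2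
      _ = _ := by simp

theorem dif_abs {a : ℕ} (ha : 2 ≤ a) {g : ℕ → ℕ → ℝ} (hg : ∀ n x, 0 ≤ g n x ∧ g n x ≤ 1) (n x : ℕ) :
    |dif a g n x| ≤ 1 := by
  obtain ⟨h1, h2⟩ := hg n x
  obtain ⟨h3, h4⟩ := avg_mem ha hg n x
  unfold dif
  rw [abs_le]
  constructor <;> linarith

theorem block_sum (f G : ℕ → ℝ) (B : ℕ) (hB : 0 < B) (A : ℕ) :
    ∑ y ∈ range (A * B), f (y / B) * G y = ∑ i ∈ range A, f i * ∑ l ∈ range B, G (i * B + l) := by
  induction A with
  | zero => simp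
  | succ A ih =>
    rw [Nat.succ_mul, sum_range_add, ih, sum_range_succ]
    congr 1
    rw [mul_sum]
    refine sum_congr rfl fun l hl => ?_
    rw [mem_range] at hl
    have : (A * B + l) / B = A := by
      rw [mul_comm, Nat.mul_add_div hB, Nat.div_eq_of_lt hl, add_zero]
    rw [this]

theorem dif_block {a : ℕ} (ha : 2 ≤ a) (g : ℕ → ℕ → ℝ) (m i : ℕ) :
    ∑ l ∈ range (a ^ (m - m / 2)), dif a g m (i * a ^ (m - m / 2) + l) = 0 := by
  obtain ⟨B, hB⟩ : ∃ B, B = a ^ (m - m / 2) := ⟨_, rfl⟩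
  have hB0 : 0 < B := by rw [hB]; exact Nat.pow_pos (by omega)
  have hBr : (B : ℝ) ≠ 0 := by exact_mod_cast hB0.ne'
  have h1 : ∀ l ∈ range B, avg a g m (i * B + l) = (∑ l ∈ range B, g m (i * B + l)) / B := by
    intro l hl
    rw [mem_range] at hl
    unfold avg
    rw [← hB]
    have : (i * B + l) / B = i := by
      rw [mul_comm, Nat.mul_add_div hB0, Nat.div_eq_of_lt hl, add_zero]
    rw [this]
  rw [← hB]
  unfold dif
  rw [sum_sub_distrib, sum_congr rfl h1, sum_const, card_range, nsmul_eq_mul]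
  field_simp
  ring

theorem orth {a : ℕ} (ha : 2 ≤ a) (g : ℕ → ℕ → ℝ) (T M n m : ℕ) (hnm : n ≤ m / 2) (hm : m ≤ M) :
    ∑ k ∈ range (T * a ^ M), dif a g n (k / a ^ (M - n)) * dif a g m (k / a ^ (M - m)) = 0 := by
  have ha0 : 0 < a := by omega
  have e1 : T * a ^ M = (T * a ^ m) * a ^ (M - m) := by
    rw [mul_assoc, ← pow_add]
    congr 2
    omega
  have e2 : ∀ k : ℕ, dif a g n (k / a ^ (M - n)) * dif a g m (k / a ^ (M - m)) =
      (fun y => dif a g n (y / a ^ (m - n)) * dif a g m y) (k / a ^ (M - m)) * (fun _ => (1 : ℝ)) k := by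
    intro k
    simp only [mul_one]
    rw [Nat.div_div_eq_div_mul, ← pow_add]
    congr 4
    omega
  rw [e1, sum_congr rfl (fun k _ => e2 k),
    block_sum (fun y => dif a g n (y / a ^ (m - n)) * dif a g m y) (fun _ => (1 : ℝ)) _ (Nat.pow_pos ha0)]
  rw [← sum_mul]
  have h1 : ∑ i ∈ range (T * a ^ m), dif a g n (i / a ^ (m - n)) * dif a g m i = 0 := by
    have e3 : T * a ^ m = (T * a ^ (m / 2)) * a ^ (m - m / 2) := by
      rw [mul_assoc, ← pow_add]
      congr 2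
      omega
    have e4 : ∀ y : ℕ, dif a g n (y / a ^ (m - n)) * dif a g m y =
        (fun i => dif a g n (i / a ^ (m / 2 - n))) (y / a ^ (m - m / 2)) * dif a g m y := by
      intro y
      simp only
      rw [Nat.div_div_eq_div_mul, ← pow_add]
      congr 4
      omega
    rw [e3, sum_congr rfl (fun k _ => e4 k),
      block_sum (fun i => dif a g n (i / a ^ (m / 2 - n))) (fun y => dif a g m y) _ (Nat.pow_pos ha0)]
    refine sum_eq_zero fun i _ => ?_
    rw [dif_block ha, mul_zero]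
  rw [h1, zero_mul]

/-- the sum over a dyadic block of levels, as a function of the first `M` digits -/
noncomputable def blk (a : ℕ) (g : ℕ → ℕ → ℝ) (M i k : ℕ) : ℝ :=
  ∑ n ∈ Ico (2 ^ i) (2 ^ (i + 1)), dif a g n (k / a ^ (M - n)) / n

theorem harm_le (i : ℕ) : ∑ n ∈ (Ico (2 ^ i) (2 ^ (i + 1)) : Finset ℕ), (1 : ℝ) / n ≤ 1 := by
  have h1 : ∀ n ∈ (Ico (2 ^ i) (2 ^ (i + 1)) : Finset ℕ), (1 : ℝ) / n ≤ 1 / (2 ^ i : ℕ) := by
    intro n hn
    rw [mem_Ico] at hn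
    have h2 : (0 : ℝ) < (2 ^ i : ℕ) := by positivity
    exact one_div_le_one_div_of_le h2 (by exact_mod_cast hn.1)
  refine (sum_le_sum h1).trans ?_
  rw [sum_const, Nat.card_Ico, nsmul_eq_mul]
  have e : 2 ^ (i + 1) - 2 ^ i = 2 ^ i := by rw [pow_succ]; omega
  rw [e]
  have h2 : ((2 ^ i : ℕ) : ℝ) ≠ 0 := by positivity
  field_simp
  norm_num

theorem harm_ge (i : ℕ) : 1 / 2 ≤ ∑ n ∈ (Ico (2 ^ i) (2 ^ (i + 1)) : Finset ℕ), (1 : ℝ) / n := by
  have h1 : ∀ n ∈ (Ico (2 ^ i) (2 ^ (i + 1)) : Finset ℕ), 1 / ((2 ^ (i + 1) : ℕ) : ℝ) ≤ (1 : ℝ) / n := by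
    intro n hn
    rw [mem_Ico] at hn
    have h2 : 0 < n := lt_of_lt_of_le (Nat.pow_pos (by norm_num)) hn.1
    have h3 : (0 : ℝ) < n := by exact_mod_cast h2
    exact one_div_le_one_div_of_le h3 (by exact_mod_cast hn.2.le)
  refine le_trans ?_ (sum_le_sum h1)
  rw [sum_const, Nat.card_Ico, nsmul_eq_mul]
  have e : 2 ^ (i + 1) - 2 ^ i = 2 ^ i := by rw [pow_succ]; omega
  rw [e]
  have h2 : ((2 ^ i : ℕ) : ℝ) ≠ 0 := by positivity
  have e2 : ((2 ^ (i + 1) : ℕ) : ℝ) = 2 * ((2 ^ i : ℕ) : ℝ) := by push_cast; ring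
  rw [e2]
  have h3 : ((2 ^ i : ℕ) : ℝ) * (1 / (2 * ((2 ^ i : ℕ) : ℝ))) = 1 / 2 := by field_simp
  linarith

theorem sum_abs {a : ℕ} (ha : 2 ≤ a) {g : ℕ → ℕ → ℝ} (hg : ∀ n x, 0 ≤ g n x ∧ g n x ≤ 1) (i : ℕ) (X : ℕ → ℕ) :
    |∑ n ∈ Ico (2 ^ i) (2 ^ (i + 1)), dif a g n (X n) / n| ≤ 1 := by
  refine (abs_sum_le_sum_abs _ _).trans (le_trans (sum_le_sum fun n _ => ?_) (harm_le i))
  rw [abs_div, Nat.abs_cast]
  exact div_le_div_of_nonneg_right (dif_abs ha hg _ _) (Nat.cast_nonneg _)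

theorem blk_orth {a : ℕ} (ha : 2 ≤ a) (g : ℕ → ℕ → ℝ) (T M i i' : ℕ) (h : i + 2 ≤ i') (hM : 2 ^ (i' + 1) ≤ M) :
    ∑ k ∈ range (T * a ^ M), blk a g M i k * blk a g M i' k = 0 := by
  unfold blk
  have h1 : ∀ k, (∑ n ∈ Ico (2 ^ i) (2 ^ (i + 1)), dif a g n (k / a ^ (M - n)) / n) *
      (∑ m ∈ Ico (2 ^ i') (2 ^ (i' + 1)), dif a g m (k / a ^ (M - m)) / m) =
      ∑ n ∈ Ico (2 ^ i) (2 ^ (i + 1)), ∑ m ∈ Ico (2 ^ i') (2 ^ (i' + 1)),
        (dif a g n (k / a ^ (M - n)) * dif a g m (k / a ^ (M - m))) * (1 / (n * m)) := by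
    intro k
    rw [sum_mul_sum]
    refine sum_congr rfl fun n _ => sum_congr rfl fun m _ => ?_
    ring
  rw [sum_congr rfl (fun k _ => h1 k), sum_comm]
  refine sum_eq_zero fun n hn => ?_
  rw [sum_comm]
  refine sum_eq_zero fun m hm => ?_
  rw [← sum_mul]
  rw [mem_Ico] at hn hm
  have h2 : 2 ^ (i + 1) * 2 ≤ 2 ^ i' := by
    rw [← pow_succ]
    exact Nat.pow_le_pow_right (by norm_num) (by omega)
  rw [orth ha g T M n m (by omega) (by omega), zero_mul]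

theorem second {a : ℕ} (ha : 2 ≤ a) {g : ℕ → ℕ → ℝ} (hg : ∀ n x, 0 ≤ g n x ∧ g n x ≤ 1) (T M I : ℕ)
    (hM : 2 ^ I ≤ M) :
    ∑ k ∈ range (T * a ^ M), (∑ i ∈ range I, blk a g M i k) ^ 2 ≤ 3 * I * (T * a ^ M : ℕ) := by
  have h1 : ∀ k, (∑ i ∈ range I, blk a g M i k) ^ 2 =
      ∑ i ∈ range I, ∑ i' ∈ range I, blk a g M i k * blk a g M i' k := by
    intro k
    rw [sq, sum_mul_sum]
  have h2 : ∑ k ∈ range (T * a ^ M), (∑ i ∈ range I, blk a g M i k) ^ 2 =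
      ∑ i ∈ range I, ∑ i' ∈ range I, ∑ k ∈ range (T * a ^ M), blk a g M i k * blk a g M i' k := by
    rw [sum_congr rfl (fun k _ => h1 k), sum_comm]
    refine sum_congr rfl fun i _ => ?_
    rw [sum_comm]
  rw [h2]
  have h3 : ∀ i ∈ range I, ∑ i' ∈ range I, ∑ k ∈ range (T * a ^ M), blk a g M i k * blk a g M i' k ≤
      3 * (T * a ^ M : ℕ) := by
    intro i hi
    rw [mem_range] at hi
    have h4 : ∀ i' ∈ range I, ∑ k ∈ range (T * a ^ M), blk a g M i k * blk a g M i' k ≤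
        if i' ∈ Icc (i - 1) (i + 1) then ((T * a ^ M : ℕ) : ℝ) else 0 := by
      intro i' hi'
      rw [mem_range] at hi'
      split_ifs with hc
      · calc ∑ k ∈ range (T * a ^ M), blk a g M i k * blk a g M i' k
            ≤ ∑ k ∈ range (T * a ^ M), (1 : ℝ) := by
              refine sum_le_sum fun k _ => ?_
              have b1 := sum_abs ha hg i (fun n => k / a ^ (M - n))
              have b2 := sum_abs ha hg i' (fun n => k / a ^ (M - n))
              have b3 : |blk a g M i k * blk a g M i' k| ≤ 1 := by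
                rw [abs_mul]
                exact mul_le_one₀ b1 (abs_nonneg _) b2
              exact (le_abs_self _).trans b3
          _ = _ := by simp
      · rw [mem_Icc] at hc
        rcases lt_or_ge i i' with h5 | h5
        · rw [blk_orth ha g T M i i' (by omega) (le_trans (Nat.pow_le_pow_right (by norm_num) (by omega)) hM)]
        · have h6 := blk_orth ha g T M i' i (by omega) (le_trans (Nat.pow_le_pow_right (by norm_num) (by omega)) hM)
          rw [sum_congr rfl (fun k _ => mul_comm _ _), h6]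
    refine (sum_le_sum h4).trans ?_
    rw [← sum_filter, sum_const, nsmul_eq_mul]
    apply mul_le_mul_of_nonneg_right _ (Nat.cast_nonneg _)
    have h5 : ((range I).filter (fun i' => i' ∈ Icc (i - 1) (i + 1))).card ≤ 3 := by
      refine (card_le_card (t := Icc (i - 1) (i + 1)) ?_).trans ?_
      · intro x hx
        exact (mem_filter.1 hx).2
      · rw [Nat.card_Icc]
        omega
    exact_mod_cast h5
  refine (sum_le_sum h3).trans ?_
  rw [sum_const, card_range, nsmul_eq_mul]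
  exact le_of_eq (by ring)

theorem cheb {a : ℕ} (ha : 2 ≤ a) {g : ℕ → ℕ → ℝ} (hg : ∀ n x, 0 ≤ g n x ∧ g n x ≤ 1) (T M I : ℕ)
    (hM : 2 ^ I ≤ M) (hI : 0 < I) {η : ℝ} (hη : 0 < η) :
    (((range (T * a ^ M)).filter (fun k => η * I ≤ |∑ i ∈ range I, blk a g M i k|)).card : ℝ) ≤
      3 * T / (η ^ 2 * I) * (a ^ M : ℕ) := by
  have h1 := second ha hg T M I hM
  have hIr : (0 : ℝ) < I := by exact_mod_cast hI
  obtain ⟨S, hS⟩ : ∃ S, S = (range (T * a ^ M)).filter (fun k => η * I ≤ |∑ i ∈ range I, blk a g M i k|) := ⟨_, rfl⟩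
  rw [← hS]
  have h2 : (S.card : ℝ) * (η * I) ^ 2 ≤ 3 * I * (T * a ^ M : ℕ) := by
    refine le_trans ?_ h1
    rw [← nsmul_eq_mul, ← sum_const]
    refine le_trans (sum_le_sum fun k hk => ?_)
      (sum_le_sum_of_subset_of_nonneg (s := S) (by rw [hS]; exact filter_subset _ _) fun k _ _ => sq_nonneg _)
    rw [hS, mem_filter] at hk
    rw [← sq_abs (∑ i ∈ range I, blk a g M i k)]
    exact pow_le_pow_left₀ (by positivity) hk.2 2
  rw [div_mul_eq_mul_div, le_div_iff₀ (by positivity)]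
  push_cast at h2 ⊢
  have h3 : (S.card : ℝ) * (η ^ 2 * I) * I ≤ 3 * T * (a : ℝ) ^ M * I := by
    calc (S.card : ℝ) * (η ^ 2 * I) * I = (S.card : ℝ) * (η * I) ^ 2 := by ring
      _ ≤ 3 * I * (T * (a : ℝ) ^ M) := h2
      _ = 3 * T * (a : ℝ) ^ M * I := by ring
  exact le_of_mul_le_mul_right h3 hIr

end Run7.h946.PW
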